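import Pool.Agent.H329R3.NLS.Conv

set_option autoImplicit false

open Set Filter Topology

namespace Pool.Agent.H329R3.NLS

/-- coefficient of `s ^ (n + 1)` in the solution with datum `s (e^{ix} + e^{-ix})` -/
noncomputable def U : ℕ → ℝ → ℤ → ℂ
  | 0 => fun t k => if k = 1 ∨ k = -1 then Complex.exp (-(Complex.I * t)) else 0
  | (n + 1) => fun t k => Complex.exp (-(Complex.I * (k : ℂ) ^ 2 * t)) *
      ∫ s in (0 : ℝ)..t, Complex.exp (Complex.I * (k : ℂ) ^ 2 * s) *
        (Complex.I * ∑ x ∈ (Finset.HasAntidiagonal.antidiagonal n).attach,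
          conv (fun l => U x.1.1 s l) (fun l => U x.1.2 s l) k)
decreasing_by
  all_goals
    have h := Finset.HasAntidiagonal.mem_antidiagonal.1 x.2
    omega

/-- the source term -/
noncomputable def src (n : ℕ) (t : ℝ) (k : ℤ) : ℂ :=
  ∑ x ∈ Finset.HasAntidiagonal.antidiagonal n, conv (U x.1 t) (U x.2 t) k

theorem U_zero (t : ℝ) (k : ℤ) :
    U 0 t k = if k = 1 ∨ k = -1 then Complex.exp (-(Complex.I * t)) else 0 := by
  rw [U]

theorem U_succ (n : ℕ) (t : ℝ) (k : ℤ) :
    U (n + 1) t k = Complex.exp (-(Complex.I * (k : ℂ) ^ 2 * t)) *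
      ∫ s in (0 : ℝ)..t, Complex.exp (Complex.I * (k : ℂ) ^ 2 * s) *
        (Complex.I * src n s k) := by
  rw [U]
  show Complex.exp (-(Complex.I * (k : ℂ) ^ 2 * t)) *
      (∫ s in (0 : ℝ)..t, Complex.exp (Complex.I * (k : ℂ) ^ 2 * s) *
        (Complex.I * ∑ x ∈ (Finset.HasAntidiagonal.antidiagonal n).attach,
          conv (fun l => U x.1.1 s l) (fun l => U x.1.2 s l) k)) = _
  congr 1
  apply intervalIntegral.integral_congr
  intro s _
  simp only
  congr 2
  unfold src
  rw [← Finset.sum_attach (Finset.HasAntidiagonal.antidiagonal n)]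

theorem U_supp (n : ℕ) (t : ℝ) : Supp (U n t) (n + 1) := by
  induction n using Nat.strong_induction_on generalizing t with
  | _ n ih =>
    rcases n with _ | n
    · intro k hk
      rw [U_zero, if_neg]
      rintro (h | h) <;> simp [h] at hk
    · intro k hk
      rw [U_succ]
      have : ∀ s : ℝ, src n s k = 0 := by
        intro s
        unfold src
        refine Finset.sum_eq_zero fun x hx => ?_
        have hx' := Finset.HasAntidiagonal.mem_antidiagonal.1 hx
        have := conv_supp (ih x.1 (by omega) s) (ih x.2 (by omega) s)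
        apply this k
        push_cast at hk ⊢
        omega
      simp [this]

theorem U_parity (n : ℕ) (t : ℝ) (k : ℤ) (hk : ¬ (2 : ℤ) ∣ (n + 1 - k)) : U n t k = 0 := by
  induction n using Nat.strong_induction_on generalizing t k with
  | _ n ih =>
    rcases n with _ | n
    · rw [U_zero, if_neg]
      rintro (h | h) <;> subst h <;> simp at hk
    · rw [U_succ]
      have : ∀ s : ℝ, src n s k = 0 := by
        intro s
        unfold src
        refine Finset.sum_eq_zero fun x hx => ?_
        have hx' := Finset.HasAntidiagonal.mem_antidiagonal.1 hx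
        unfold conv
        refine (tsum_congr fun l => ?_).trans tsum_zero
        by_cases hl : (2 : ℤ) ∣ (x.1 + 1 - l)
        · rw [ih x.2 (by omega) s (k - l), mul_zero]
          intro h2
          apply hk
          have h3 := dvd_add hl h2
          have : ((n + 1 : ℕ) : ℤ) + 1 - k = (x.1 + 1 - l + (x.2 + 1 - (k - l))) := by
            have : (x.1 : ℤ) + x.2 = n := by exact_mod_cast hx'
            push_cast
            linarith
          rw [this]
          exact h3
        · rw [ih x.1 (by omega) s l hl, zero_mul]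
      simp [this]

theorem U_cont (n : ℕ) (k : ℤ) : Continuous fun t => U n t k := by
  induction n using Nat.strong_induction_on generalizing k with
  | _ n ih =>
    rcases n with _ | n
    · simp only [U_zero]
      split_ifs
      · fun_prop
      · exact continuous_const
    · have hsrc : Continuous fun s => src n s k := by
        unfold src
        refine continuous_finsetSum _ fun x hx => ?_
        have hx' := Finset.HasAntidiagonal.mem_antidiagonal.1 hx
        have : (fun s => conv (U x.1 s) (U x.2 s) k) = fun s =>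
            ∑ l ∈ Finset.Icc (-((x.1 + 1 : ℕ) : ℤ)) ((x.1 + 1 : ℕ) : ℤ),
              U x.1 s l * U x.2 s (k - l) := by
          funext s
          exact conv_eq_sum (U_supp x.1 s) k
        rw [this]
        exact continuous_finsetSum _ fun l _ => (ih x.1 (by omega) l).mul (ih x.2 (by omega) _)
      simp only [U_succ]
      refine Continuous.mul (by fun_prop) ?_
      refine intervalIntegral.continuous_primitive (fun a b => ?_) 0
      apply Continuous.intervalIntegrable
      fun_prop

theorem src_cont (n : ℕ) (k : ℤ) : Continuous fun s => src n s k := by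
  unfold src
  refine continuous_finsetSum _ fun x hx => ?_
  have : (fun s => conv (U x.1 s) (U x.2 s) k) = fun s =>
      ∑ l ∈ Finset.Icc (-((x.1 + 1 : ℕ) : ℤ)) ((x.1 + 1 : ℕ) : ℤ),
        U x.1 s l * U x.2 s (k - l) := by
    funext s
    exact conv_eq_sum (U_supp x.1 s) k
  rw [this]
  exact continuous_finsetSum _ fun l _ => (U_cont x.1 l).mul (U_cont x.2 _)

theorem U_init (n : ℕ) (k : ℤ) : U (n + 1) 0 k = 0 := by
  rw [U_succ]; simp

theorem U_deriv_zero (t : ℝ) (k : ℤ) :
    HasDerivAt (fun t => U 0 t k) (Complex.I * (-((k : ℂ) ^ 2) * U 0 t k)) t := by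
  simp only [U_zero]
  by_cases h : k = 1 ∨ k = -1
  · simp only [if_pos h]
    have hk : (k : ℂ) ^ 2 = 1 := by rcases h with h | h <;> subst h <;> simp
    rw [hk]
    have h1 : HasDerivAt (fun t : ℝ => -(Complex.I * (t : ℂ))) (-(Complex.I * 1)) t :=
      ((Complex.ofRealCLM.hasDerivAt (x := t)).const_mul Complex.I).neg
    have h2 := h1.cexp
    convert h2 using 1
    ring
  · simp only [if_neg h]
    simpa using hasDerivAt_const t (0 : ℂ)

theorem U_deriv_succ (n : ℕ) (t : ℝ) (k : ℤ) :
    HasDerivAt (fun t => U (n + 1) t k)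
      (Complex.I * (-((k : ℂ) ^ 2) * U (n + 1) t k + src n t k)) t := by
  simp only [U_succ]
  have h1 : HasDerivAt (fun t : ℝ => -(Complex.I * (k : ℂ) ^ 2 * (t : ℂ)))
      (-(Complex.I * (k : ℂ) ^ 2 * 1)) t :=
    ((Complex.ofRealCLM.hasDerivAt (x := t)).const_mul (Complex.I * (k : ℂ) ^ 2)).neg
  have h2 := h1.cexp
  have hc : Continuous fun s : ℝ => Complex.exp (Complex.I * (k : ℂ) ^ 2 * s) *
      (Complex.I * src n s k) := by
    have := src_cont n k
    fun_prop
  have h3 := intervalIntegral.integral_hasDerivAt_right (a := 0) (b := t)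
    (hc.intervalIntegrable 0 t) (hc.stronglyMeasurableAtFilter _ _) hc.continuousAt
  refine (h2.mul h3).congr_deriv ?_
  have e : Complex.exp (-(Complex.I * (k : ℂ) ^ 2 * t)) *
      Complex.exp (Complex.I * (k : ℂ) ^ 2 * t) = 1 := by
    rw [← Complex.exp_add]; simp
  linear_combination (Complex.I * src n t k) * e

end Pool.Agent.H329R3.NLS
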