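import Pool.Agent.H329R3.NLS.Gron
import Pool.Agent.H329R3.NLS.Series

set_option autoImplicit false

open Set Filter Topology

namespace Pool.Agent.H329R3.NLS

theorem src_bd {n : ℕ} {t : ℝ} {b : ℕ → ℝ} (h : ∀ i ≤ n, Bd (U i t) (b i)) :
    Bd (src n t) (∑ x ∈ Finset.HasAntidiagonal.antidiagonal n, b x.1 * b x.2) := by
  have : src n t = fun k => ∑ x ∈ Finset.HasAntidiagonal.antidiagonal n,
      conv (U x.1 t) (U x.2 t) k := rfl
  rw [this]
  refine Bd.sum _ fun x hx => ?_
  have hx' := Finset.HasAntidiagonal.mem_antidiagonal.1 hx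
  exact conv_bd (h x.1 (by omega)) (h x.2 (by omega))

theorem U_bd (n : ℕ) {t : ℝ} (ht : 0 ≤ t) : Bd (U n t) (2 ^ (n + 1) * t ^ n) := by
  induction n using Nat.strong_induction_on generalizing t with
  | _ n ih =>
    rcases n with _ | n
    · intro F
      have h1 : ∀ k ∈ F, ‖U 0 t k‖ ≤ if k ∈ ({1, -1} : Finset ℤ) then 1 else 0 := by
        intro k _
        rw [U_zero]
        by_cases h : k = 1 ∨ k = -1
        · rw [if_pos h, if_pos (by simpa using h), Complex.norm_exp]
          simp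
        · rw [if_neg h, if_neg (by simpa using h)]
          simp
      calc ∑ k ∈ F, ‖U 0 t k‖ ≤ ∑ k ∈ F, if k ∈ ({1, -1} : Finset ℤ) then (1 : ℝ) else 0 :=
            Finset.sum_le_sum h1
        _ = ((F.filter fun k => k ∈ ({1, -1} : Finset ℤ)).card : ℝ) := by
            rw [Finset.sum_ite]; simp
        _ ≤ (({1, -1} : Finset ℤ).card : ℝ) := by
            exact_mod_cast Finset.card_le_card (fun k hk => (Finset.mem_filter.1 hk).2)
        _ ≤ 2 ^ (0 + 1) * t ^ 0 := by
            simp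
    · refine step (T := t) (d := U (n + 1)) (q := src n) (lam := fun k => (k : ℝ) ^ 2)
        (B := fun t => 2 ^ (n + 1 + 1) * t ^ (n + 1))
        (B' := fun t => 2 ^ (n + 1 + 1) * (((n + 1 : ℕ) : ℝ) * t ^ n)) ?_ (U_init n) (by simp) ?_ ?_
        ⟨ht, le_rfl⟩
      · intro k s _
        have := (U_deriv_succ n s k).hasDerivWithinAt (s := Icc 0 t)
        push_cast
        exact this
      · intro s
        simpa using (hasDerivAt_pow (n + 1) s).const_mul (2 ^ (n + 1 + 1))
      · intro s hs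
        have h1 := src_bd (n := n) (t := s) (b := fun i => 2 ^ (i + 1) * s ^ i)
          fun i hi => ih i (by omega) hs.1
        refine h1.mono (le_of_eq ?_)
        have h2 : ∀ x ∈ Finset.HasAntidiagonal.antidiagonal n,
            (2 : ℝ) ^ (x.1 + 1) * s ^ x.1 * (2 ^ (x.2 + 1) * s ^ x.2) = 2 ^ (n + 2) * s ^ n := by
          intro x hx
          have hx' := Finset.HasAntidiagonal.mem_antidiagonal.1 hx
          rw [← hx']
          ring
        rw [Finset.sum_congr rfl h2]
        simp [Finset.Nat.card_antidiagonal]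
        ring

/-- truncated series -/
noncomputable def W (N : ℕ) (s : ℝ) (t : ℝ) (k : ℤ) : ℂ :=
  ∑ n ∈ Finset.range N, (s : ℂ) ^ (n + 1) * U n t k

/-- truncated series of the source terms -/
noncomputable def WS (N : ℕ) (s : ℝ) (t : ℝ) (k : ℤ) : ℂ :=
  ∑ n ∈ Finset.range (N - 1), (s : ℂ) ^ (n + 2) * src n t k

theorem W_deriv (N : ℕ) (s t : ℝ) (k : ℤ) :
    HasDerivAt (fun t => W N s t k)
      (Complex.I * (-((k : ℂ) ^ 2) * W N s t k + WS N s t k)) t := by
  unfold W WS
  rcases N with _ | N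
  · simpa using hasDerivAt_const t (0 : ℂ)
  · have h : ∀ n ∈ Finset.range (N + 1), HasDerivAt (fun t => (s : ℂ) ^ (n + 1) * U n t k)
        (Complex.I * (-((k : ℂ) ^ 2) * ((s : ℂ) ^ (n + 1) * U n t k) +
          if n = 0 then 0 else (s : ℂ) ^ (n + 1) * src (n - 1) t k)) t := by
      intro n _
      rcases n with _ | n
      · refine ((U_deriv_zero t k).const_mul ((s : ℂ) ^ (0 + 1))).congr_deriv ?_
        simp; ring
      · refine ((U_deriv_succ n t k).const_mul ((s : ℂ) ^ (n + 1 + 1))).congr_deriv ?_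
        simp; ring
    refine (HasDerivAt.fun_sum h).congr_deriv ?_
    rw [← Finset.mul_sum, Finset.sum_add_distrib, ← Finset.mul_sum]
    congr 2
    rw [Finset.sum_range_succ']
    simp

/-- the quadratic error of the truncated series -/
theorem W_err (N : ℕ) {s t : ℝ} (hs : 0 ≤ s) (ht : 0 ≤ t) (hs1 : 2 * s ≤ 1)
    (hst : 2 * s * t ≤ 1 / 2) :
    Bd (fun k => conv (W N s t) (W N s t) k - WS N s t k) (N ^ 2 * (1 / 2) ^ (N - 1)) := by
  classical
  have hU : ∀ n, Bd (fun k => (s : ℂ) ^ (n + 1) * U n t k) (2 * s * (2 * s * t) ^ n) := by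
    intro n
    refine ((U_bd n ht).smul ((s : ℂ) ^ (n + 1))).mono (le_of_eq ?_)
    rw [norm_pow, Complex.norm_real, Real.norm_of_nonneg hs]
    ring
  have hconv : ∀ k, conv (W N s t) (W N s t) k =
      ∑ x ∈ Finset.range N ×ˢ Finset.range N,
        conv (fun k => (s : ℂ) ^ (x.1 + 1) * U x.1 t k) (fun k => (s : ℂ) ^ (x.2 + 1) * U x.2 t k) k := by
    intro k
    have hWb : Bd (W N s t) (∑ n ∈ Finset.range N, 2 * s * (2 * s * t) ^ n) :=
      Bd.sum _ fun n _ => hU n
    have h1 : conv (W N s t) (W N s t) k = ∑ i ∈ Finset.range N,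
        conv (fun k => (s : ℂ) ^ (i + 1) * U i t k) (W N s t) k := by
      have := conv_sum_left (Finset.range N) (x := fun n k => (s : ℂ) ^ (n + 1) * U n t k)
        (fun i _ => hU i) hWb k
      exact this
    rw [h1, Finset.sum_product]
    refine Finset.sum_congr rfl fun i _ => ?_
    exact conv_sum_right (Finset.range N) (x := fun n k => (s : ℂ) ^ (n + 1) * U n t k)
        (fun i _ => hU i) (hU i) k
  have hWS : ∀ k, WS N s t k =
      ∑ x ∈ (Finset.range N ×ˢ Finset.range N).filter (fun x => x.1 + x.2 < N - 1),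
        conv (fun k => (s : ℂ) ^ (x.1 + 1) * U x.1 t k) (fun k => (s : ℂ) ^ (x.2 + 1) * U x.2 t k) k := by
    intro k
    rw [← Finset.sum_fiberwise_of_maps_to (t := Finset.range (N - 1)) (g := fun x => x.1 + x.2)]
    · unfold WS
      refine Finset.sum_congr rfl fun n hn => ?_
      rw [Finset.mem_range] at hn
      unfold src
      rw [Finset.mul_sum]
      have hset : (Finset.filter (fun x : ℕ × ℕ => x.1 + x.2 = n)
          ((Finset.range N ×ˢ Finset.range N).filter (fun x => x.1 + x.2 < N - 1))) =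
          Finset.HasAntidiagonal.antidiagonal n := by
        ext x
        simp only [Finset.mem_filter, Finset.mem_product, Finset.mem_range,
          Finset.HasAntidiagonal.mem_antidiagonal]
        constructor
        · rintro ⟨_, h⟩; exact h
        · intro h; exact ⟨⟨⟨by omega, by omega⟩, by omega⟩, h⟩
      rw [hset]
      refine Finset.sum_congr rfl fun x hx => ?_
      have hx' := Finset.HasAntidiagonal.mem_antidiagonal.1 hx
      rw [conv_smul_left, conv_smul_right, ← hx']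
      ring
    · intro x hx
      simp only [Finset.mem_filter] at hx
      exact Finset.mem_range.2 hx.2
  have hdiff : (fun k => conv (W N s t) (W N s t) k - WS N s t k) = fun k =>
      ∑ x ∈ (Finset.range N ×ˢ Finset.range N).filter (fun x => ¬ (x.1 + x.2 < N - 1)),
        conv (fun k => (s : ℂ) ^ (x.1 + 1) * U x.1 t k) (fun k => (s : ℂ) ^ (x.2 + 1) * U x.2 t k) k := by
    funext k
    rw [hconv, hWS, ← Finset.sum_filter_add_sum_filter_not (Finset.range N ×ˢ Finset.range N)
      (fun x => x.1 + x.2 < N - 1)]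
    ring
  rw [hdiff]
  have hx : (0 : ℝ) ≤ 2 * s * t := by positivity
  refine (Bd.sum (A := fun _ => (1 / 2 : ℝ) ^ (N - 1)) _ fun x hx' => ?_).mono ?_
  · refine (conv_bd (hU x.1) (hU x.2)).mono ?_
    simp only [Finset.mem_filter, not_lt] at hx'
    have e : 2 * s * (2 * s * t) ^ x.1 * (2 * s * (2 * s * t) ^ x.2) =
        (2 * s) * (2 * s) * (2 * s * t) ^ (x.1 + x.2) := by ring
    rw [e]
    have h1 : (2 * s) * (2 * s) ≤ 1 := by nlinarith
    have h2 : (2 * s * t) ^ (x.1 + x.2) ≤ (1 / 2) ^ (x.1 + x.2) := pow_le_pow_left₀ hx hst _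
    have h3 : (1 / 2 : ℝ) ^ (x.1 + x.2) ≤ (1 / 2) ^ (N - 1) :=
      pow_le_pow_of_le_one (by norm_num) (by norm_num) hx'.2
    calc 2 * s * (2 * s) * (2 * s * t) ^ (x.1 + x.2) ≤ 1 * (1 / 2) ^ (N - 1) :=
          mul_le_mul h1 (h2.trans h3) (by positivity) (by norm_num)
      _ = _ := one_mul _
  · rw [Finset.sum_const, nsmul_eq_mul]
    refine mul_le_mul_of_nonneg_right ?_ (by positivity)
    have : ((Finset.range N ×ˢ Finset.range N).filter (fun x => ¬ (x.1 + x.2 < N - 1))).card ≤ N ^ 2 := by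
      refine (Finset.card_filter_le _ _).trans ?_
      simp [sq]
    exact_mod_cast this

theorem W_bd (N : ℕ) {s t : ℝ} (hs : 0 ≤ s) (ht : 0 ≤ t) (hs1 : 2 * s ≤ 1)
    (hst : 2 * s * t ≤ 1 / 2) : Bd (W N s t) 2 := by
  have h : Bd (W N s t) (∑ n ∈ Finset.range N, (1 / 2 : ℝ) ^ n) := by
    refine Bd.sum _ fun n _ => ?_
    refine ((U_bd n ht).smul ((s : ℂ) ^ (n + 1))).mono ?_
    rw [norm_pow, Complex.norm_real, Real.norm_of_nonneg hs]
    have e : s ^ (n + 1) * (2 ^ (n + 1) * t ^ n) = 2 * s * (2 * s * t) ^ n := by ring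
    rw [e]
    calc 2 * s * (2 * s * t) ^ n ≤ 1 * (1 / 2) ^ n :=
          mul_le_mul hs1 (pow_le_pow_left₀ (by positivity) hst _) (by positivity) (by norm_num)
      _ = _ := one_mul _
  refine h.mono ?_
  have := geom_sum_eq (show (1 / 2 : ℝ) ≠ 1 by norm_num) N
  rw [this]
  have h2 : (0 : ℝ) ≤ (1 / 2) ^ N := by positivity
  rw [div_le_iff_of_neg (by norm_num)]
  linarith

/-- A bounded solution with datum `s (e^{ix} + e^{-ix})` is the sum of the series. -/
theorem sol_eq {T : ℝ} {a : ℝ → ℤ → ℂ} {s K : ℝ} (hs : 0 ≤ s) (hs1 : 2 * s ≤ 1)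
    (hst : 2 * s * T ≤ 1 / 2)
    (ha : ∀ k, ∀ t ∈ Icc 0 T, HasDerivWithinAt (fun s => a s k)
      (Complex.I * (-((k : ℂ) ^ 2) * a t k + conv (a t) (a t) k)) (Icc 0 T) t)
    (h0 : ∀ k, a 0 k = if k = 1 ∨ k = -1 then (s : ℂ) else 0)
    (hK : ∀ t ∈ Icc 0 T, Bd (a t) K) {t : ℝ} (ht : t ∈ Icc 0 T) (k : ℤ) :
    Tendsto (fun N => W N s t k) atTop (𝓝 (a t k)) := by
  have hT : 0 ≤ T := ht.1.trans ht.2
  have hK0 : 0 ≤ K := (hK 0 ⟨le_rfl, hT⟩).nonneg
  have hbound : ∀ N : ℕ, 1 ≤ N → ‖a t k - W N s t k‖ ≤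
      (N ^ 2 * (1 / 2) ^ (N - 1)) * t * Real.exp ((K + 2) * t) := by
    intro N hN
    have h2st : ∀ τ ∈ Icc 0 T, 2 * s * τ ≤ 1 / 2 := fun τ hτ =>
      (mul_le_mul_of_nonneg_left hτ.2 (by positivity)).trans hst
    have := gron (T := T) (d := fun t k => a t k - W N s t k)
      (q := fun t k => (conv (a t) (a t) k - conv (W N s t) (W N s t) k) +
        (conv (W N s t) (W N s t) k - WS N s t k)) (lam := fun k => (k : ℝ) ^ 2)
      ?_ ?_ (C := K + 2) (ρ := N ^ 2 * (1 / 2) ^ (N - 1)) (M := K + 2) (by positivity)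
      (by positivity) (by positivity) ?_ ?_ ht
    · exact this.le k
    · intro k τ hτ
      refine ((ha k τ hτ).sub (W_deriv N s τ k).hasDerivWithinAt).congr_deriv ?_
      push_cast
      ring
    · intro k
      simp only [h0]
      unfold W
      obtain ⟨N', rfl⟩ : ∃ N', N = N' + 1 := ⟨N - 1, by omega⟩
      rw [Finset.sum_range_succ']
      simp only [U_init, mul_zero, Finset.sum_const_zero, zero_add, pow_one, U_zero]
      split_ifs <;> simp
    · intro τ hτ
      exact (hK τ hτ).sub (W_bd N hs hτ.1 hs1 (h2st τ hτ))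
    · intro τ hτ D hD
      have hW := W_bd N hs hτ.1 hs1 (h2st τ hτ)
      have hA := hK τ hτ
      refine Bd.add ?_ (W_err N hs hτ.1 hs1 (h2st τ hτ))
      have e : (fun k => conv (a τ) (a τ) k - conv (W N s τ) (W N s τ) k) = fun k =>
          conv (a τ) (fun l => a τ l - W N s τ l) k + conv (fun l => a τ l - W N s τ l) (W N s τ) k := by
        funext k
        rw [conv_sub_right hA hA hW, conv_sub_left hA hW hW]
        ring
      rw [e]
      refine ((conv_bd hA hD).add (conv_bd hD hW)).mono (le_of_eq ?_)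
      ring
  have hlim : Tendsto (fun N : ℕ => ((N : ℝ) ^ 2 * (1 / 2) ^ (N - 1)) * t *
      Real.exp ((K + 2) * t)) atTop (𝓝 0) := by
    have h1 : Tendsto (fun N : ℕ => (N : ℝ) ^ 2 * (1 / 2) ^ (N - 1)) atTop (𝓝 0) := by
      have h2 := (tendsto_pow_const_mul_const_pow_of_abs_lt_one 2
        (show |(1 / 2 : ℝ)| < 1 by rw [abs_of_pos (by norm_num)]; norm_num)).const_mul 2
      rw [mul_zero] at h2
      refine h2.congr' ?_
      filter_upwards [eventually_ge_atTop 1] with N hN
      obtain ⟨N', rfl⟩ : ∃ N', N = N' + 1 := ⟨N - 1, by omega⟩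
      simp only [add_tsub_cancel_right, pow_succ]
      ring
    simpa using (h1.mul_const t).mul_const (Real.exp ((K + 2) * t))
  rw [tendsto_iff_norm_sub_tendsto_zero]
  refine squeeze_zero' (Eventually.of_forall fun _ => norm_nonneg _) ?_ hlim
  filter_upwards [eventually_ge_atTop 1] with N hN
  rw [norm_sub_rev]
  exact hbound N hN

end Pool.Agent.H329R3.NLS
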