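import Mathlib

set_option autoImplicit false

open Set Filter Topology

namespace Pool.Agent.H329R3.NLS

/-- all finite sums of `‖x k‖` are at most `A` -/
def Bd (x : ℤ → ℂ) (A : ℝ) : Prop := ∀ F : Finset ℤ, ∑ k ∈ F, ‖x k‖ ≤ A

theorem Bd.nonneg {x : ℤ → ℂ} {A : ℝ} (h : Bd x A) : 0 ≤ A := by
  simpa using h ∅

theorem Bd.summable {x : ℤ → ℂ} {A : ℝ} (h : Bd x A) : Summable fun k => ‖x k‖ :=
  summable_of_sum_le (fun _ => norm_nonneg _) h

theorem Bd.tsum_le {x : ℤ → ℂ} {A : ℝ} (h : Bd x A) : ∑' k, ‖x k‖ ≤ A :=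
  h.summable.tsum_le_of_sum_le h

theorem Bd.le {x : ℤ → ℂ} {A : ℝ} (h : Bd x A) (k : ℤ) : ‖x k‖ ≤ A := by
  simpa using h {k}

theorem Bd.mono {x : ℤ → ℂ} {A B : ℝ} (h : Bd x A) (hAB : A ≤ B) : Bd x B :=
  fun F => (h F).trans hAB

theorem bd_zero : Bd (fun _ => 0) 0 := by
  intro F; simp

theorem Bd.of_le {x y : ℤ → ℂ} {A : ℝ} (h : Bd x A) (hxy : ∀ k, ‖y k‖ ≤ ‖x k‖) : Bd y A :=
  fun F => (Finset.sum_le_sum fun k _ => hxy k).trans (h F)

theorem Bd.add {x y : ℤ → ℂ} {A B : ℝ} (hx : Bd x A) (hy : Bd y B) :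
    Bd (fun k => x k + y k) (A + B) := by
  intro F
  calc ∑ k ∈ F, ‖x k + y k‖ ≤ ∑ k ∈ F, (‖x k‖ + ‖y k‖) :=
        Finset.sum_le_sum fun k _ => norm_add_le _ _
    _ = ∑ k ∈ F, ‖x k‖ + ∑ k ∈ F, ‖y k‖ := Finset.sum_add_distrib
    _ ≤ A + B := add_le_add (hx F) (hy F)

theorem Bd.neg {x : ℤ → ℂ} {A : ℝ} (hx : Bd x A) : Bd (fun k => - x k) A := by
  intro F; simpa using hx F

theorem Bd.sub {x y : ℤ → ℂ} {A B : ℝ} (hx : Bd x A) (hy : Bd y B) :
    Bd (fun k => x k - y k) (A + B) := by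
  have := hx.add hy.neg
  simpa [sub_eq_add_neg] using this

theorem Bd.smul {x : ℤ → ℂ} {A : ℝ} (hx : Bd x A) (c : ℂ) : Bd (fun k => c * x k) (‖c‖ * A) := by
  intro F
  calc ∑ k ∈ F, ‖c * x k‖ = ‖c‖ * ∑ k ∈ F, ‖x k‖ := by
        rw [Finset.mul_sum]; exact Finset.sum_congr rfl fun k _ => norm_mul _ _
    _ ≤ ‖c‖ * A := mul_le_mul_of_nonneg_left (hx F) (norm_nonneg _)

theorem Bd.sum {ι : Type*} (S : Finset ι) {x : ι → ℤ → ℂ} {A : ι → ℝ}
    (h : ∀ i ∈ S, Bd (x i) (A i)) : Bd (fun k => ∑ i ∈ S, x i k) (∑ i ∈ S, A i) := by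
  classical
  induction S using Finset.induction_on with
  | empty => intro F; simp
  | insert a S ha ih =>
    have h1 := (h a (Finset.mem_insert_self a S)).add
      (ih fun i hi => h i (Finset.mem_insert_of_mem hi))
    intro F
    have := h1 F
    simpa [Finset.sum_insert ha] using this

theorem Bd.shift {x : ℤ → ℂ} {A : ℝ} (hx : Bd x A) (l : ℤ) : Bd (fun k => x (k - l)) A := by
  intro F
  have h := hx (F.image (fun k => k - l))
  rw [Finset.sum_image (fun a _ b _ h => by simpa using h)] at h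
  exact h

/-- convolution -/
noncomputable def conv (x y : ℤ → ℂ) : ℤ → ℂ := fun k => ∑' l : ℤ, x l * y (k - l)

theorem conv_summable {x y : ℤ → ℂ} {A B : ℝ} (hx : Bd x A) (hy : Bd y B) (k : ℤ) :
    Summable fun l : ℤ => ‖x l * y (k - l)‖ := by
  refine Summable.of_nonneg_of_le (fun _ => norm_nonneg _) (fun l => ?_) (hx.summable.mul_right B)
  rw [norm_mul]
  exact mul_le_mul_of_nonneg_left (hy.le _) (norm_nonneg _)

theorem conv_bd {x y : ℤ → ℂ} {A B : ℝ} (hx : Bd x A) (hy : Bd y B) : Bd (conv x y) (A * B) := by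
  intro F
  have h1 : ∀ k ∈ F, ‖conv x y k‖ ≤ ∑' l : ℤ, ‖x l‖ * ‖y (k - l)‖ := by
    intro k _
    have := norm_tsum_le_tsum_norm (conv_summable hx hy k)
    unfold conv
    simpa [norm_mul] using this
  have hs : ∀ k ∈ F, Summable fun l : ℤ => ‖x l‖ * ‖y (k - l)‖ := by
    intro k _
    simpa [norm_mul] using conv_summable hx hy k
  calc ∑ k ∈ F, ‖conv x y k‖ ≤ ∑ k ∈ F, ∑' l : ℤ, ‖x l‖ * ‖y (k - l)‖ := Finset.sum_le_sum h1
    _ = ∑' l : ℤ, ∑ k ∈ F, ‖x l‖ * ‖y (k - l)‖ := (Summable.tsum_finsetSum hs).symm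
    _ = ∑' l : ℤ, ‖x l‖ * ∑ k ∈ F, ‖y (k - l)‖ := by
        simp_rw [Finset.mul_sum]
    _ ≤ ∑' l : ℤ, ‖x l‖ * B := by
        refine Summable.tsum_le_tsum (fun l => mul_le_mul_of_nonneg_left (hy.shift l F)
          (norm_nonneg _)) ?_ (hx.summable.mul_right B)
        refine Summable.of_nonneg_of_le (fun l => mul_nonneg (norm_nonneg _)
          (Finset.sum_nonneg fun _ _ => norm_nonneg _)) (fun l => ?_) (hx.summable.mul_right B)
        exact mul_le_mul_of_nonneg_left (hy.shift l F) (norm_nonneg _)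
    _ = (∑' l : ℤ, ‖x l‖) * B := tsum_mul_right
    _ ≤ A * B := mul_le_mul_of_nonneg_right hx.tsum_le hy.nonneg

theorem conv_add_left {x x' y : ℤ → ℂ} {A A' B : ℝ} (hx : Bd x A) (hx' : Bd x' A') (hy : Bd y B)
    (k : ℤ) : conv (fun l => x l + x' l) y k = conv x y k + conv x' y k := by
  unfold conv
  rw [← Summable.tsum_add (conv_summable hx hy k).of_norm (conv_summable hx' hy k).of_norm]
  exact tsum_congr fun l => by ring

theorem conv_comm (x y : ℤ → ℂ) (k : ℤ) : conv x y k = conv y x k := by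
  unfold conv
  rw [← (Equiv.subLeft k).tsum_eq]
  refine tsum_congr fun l => ?_
  simp only [Equiv.subLeft_apply, sub_sub_cancel]
  ring

theorem conv_add_right {x y y' : ℤ → ℂ} {A B B' : ℝ} (hx : Bd x A) (hy : Bd y B) (hy' : Bd y' B')
    (k : ℤ) : conv x (fun l => y l + y' l) k = conv x y k + conv x y' k := by
  rw [conv_comm, conv_add_left hy hy' hx, conv_comm y, conv_comm y']

theorem conv_neg_left (x y : ℤ → ℂ) (k : ℤ) : conv (fun l => - x l) y k = - conv x y k := by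
  unfold conv
  rw [← tsum_neg]
  exact tsum_congr fun l => by ring

theorem conv_sub_left {x x' y : ℤ → ℂ} {A A' B : ℝ} (hx : Bd x A) (hx' : Bd x' A') (hy : Bd y B)
    (k : ℤ) : conv (fun l => x l - x' l) y k = conv x y k - conv x' y k := by
  have := conv_add_left hx hx'.neg hy k
  rw [conv_neg_left] at this
  simpa [sub_eq_add_neg] using this

theorem conv_sub_right {x y y' : ℤ → ℂ} {A B B' : ℝ} (hx : Bd x A) (hy : Bd y B) (hy' : Bd y' B')
    (k : ℤ) : conv x (fun l => y l - y' l) k = conv x y k - conv x y' k := by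
  rw [conv_comm, conv_sub_left hy hy' hx, conv_comm y, conv_comm y']

theorem conv_smul_left (c : ℂ) (x y : ℤ → ℂ) (k : ℤ) :
    conv (fun l => c * x l) y k = c * conv x y k := by
  unfold conv
  rw [← tsum_mul_left]
  exact tsum_congr fun l => by ring

theorem conv_smul_right (c : ℂ) (x y : ℤ → ℂ) (k : ℤ) :
    conv x (fun l => c * y l) k = c * conv x y k := by
  rw [conv_comm, conv_smul_left, conv_comm]

theorem conv_sum_left {ι : Type*} (S : Finset ι) {x : ι → ℤ → ℂ} {A : ι → ℝ} {y : ℤ → ℂ} {B : ℝ}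
    (hx : ∀ i ∈ S, Bd (x i) (A i)) (hy : Bd y B) (k : ℤ) :
    conv (fun l => ∑ i ∈ S, x i l) y k = ∑ i ∈ S, conv (x i) y k := by
  unfold conv
  simp_rw [Finset.sum_mul]
  rw [Summable.tsum_finsetSum]
  intro i hi
  exact (conv_summable (hx i hi) hy k).of_norm

theorem conv_sum_right {ι : Type*} (S : Finset ι) {x : ι → ℤ → ℂ} {A : ι → ℝ} {y : ℤ → ℂ} {B : ℝ}
    (hx : ∀ i ∈ S, Bd (x i) (A i)) (hy : Bd y B) (k : ℤ) :
    conv y (fun l => ∑ i ∈ S, x i l) k = ∑ i ∈ S, conv y (x i) k := by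
  rw [conv_comm, conv_sum_left S hx hy]
  exact Finset.sum_congr rfl fun i _ => conv_comm _ _ _

/-- `x` vanishes outside `[-M, M]` -/
def Supp (x : ℤ → ℂ) (M : ℕ) : Prop := ∀ k : ℤ, (M : ℤ) < |k| → x k = 0

theorem conv_eq_sum {x y : ℤ → ℂ} {M : ℕ} (hx : Supp x M) (k : ℤ) :
    conv x y k = ∑ l ∈ Finset.Icc (-(M : ℤ)) M, x l * y (k - l) := by
  unfold conv
  refine tsum_eq_sum fun l hl => ?_
  rw [hx l, zero_mul]
  simp only [Finset.mem_Icc, not_and_or, not_le] at hl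
  rcases hl with h | h
  · rw [abs_of_neg (by omega)]; omega
  · rw [abs_of_pos (by omega)]; omega

theorem conv_supp {x y : ℤ → ℂ} {M N : ℕ} (hx : Supp x M) (hy : Supp y N) :
    Supp (conv x y) (M + N) := by
  intro k hk
  rw [conv_eq_sum hx]
  refine Finset.sum_eq_zero fun l hl => ?_
  rw [Finset.mem_Icc] at hl
  rw [hy (k - l), mul_zero]
  have h1 : |l| ≤ M := abs_le.2 hl
  have h2 : |k| ≤ |k - l| + |l| := by
    have := abs_add_le (k - l) l
    simpa using this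
  push_cast at hk
  omega

end Pool.Agent.H329R3.NLS
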