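import Pool.Agent.H329R3.NLS.Comp

set_option autoImplicit false

open Set Filter Topology

namespace Pool.Agent.H329R3.NLS

theorem conv_diag {x y : ℤ → ℂ} {M N : ℕ} (hx : Supp x M) (hy : Supp y N) :
    conv x y ((M : ℤ) + N) = x M * y N := by
  unfold conv
  rw [tsum_eq_single (M : ℤ)]
  · congr 2; ring
  · intro l hl
    rcases lt_or_gt_of_ne hl with h | h
    · rw [hy _ (by rw [abs_of_pos (by omega)]; omega), mul_zero]
    · rw [hx _ (by rw [abs_of_pos (by omega)]; omega), zero_mul]

theorem src_diag (n : ℕ) (t : ℝ) : src n t ((n : ℤ) + 2) =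
    ∑ x ∈ Finset.HasAntidiagonal.antidiagonal n, U x.1 t ((x.1 : ℤ) + 1) * U x.2 t ((x.2 : ℤ) + 1) := by
  unfold src
  refine Finset.sum_congr rfl fun x hx => ?_
  have hx' := Finset.HasAntidiagonal.mem_antidiagonal.1 hx
  have := conv_diag (U_supp x.1 t) (U_supp x.2 t)
  push_cast at this
  rw [← this]
  congr 1
  have : (x.1 : ℤ) + x.2 = n := by exact_mod_cast hx'
  linarith

/-- the polynomial solving `X G' = D G - H`, `G(1) = 0` -/
noncomputable def GG (D : ℕ) (H : Polynomial ℂ) : Polynomial ℂ :=
  ∑ m ∈ Finset.range D, Polynomial.monomial m (H.coeff m / ((D : ℂ) - m)) +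
    Polynomial.monomial D (-∑ m ∈ Finset.range D, H.coeff m / ((D : ℂ) - m))

theorem GG_coeff (D : ℕ) (H : Polynomial ℂ) (m : ℕ) : (GG D H).coeff m =
    if m < D then H.coeff m / ((D : ℂ) - m) else
      if m = D then -∑ m ∈ Finset.range D, H.coeff m / ((D : ℂ) - m) else 0 := by
  unfold GG
  rw [Polynomial.coeff_add, Polynomial.finsetSum_coeff]
  simp only [Polynomial.coeff_monomial, Finset.sum_ite_eq', Finset.mem_range]
  by_cases h : m < D
  · rw [if_pos h, if_pos h, if_neg (by omega), add_zero]
  · rw [if_neg h, if_neg h, zero_add]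
    by_cases h2 : m = D
    · rw [if_pos h2.symm, if_pos h2]
    · rw [if_neg (Ne.symm h2), if_neg h2]

theorem GG_natDegree (D : ℕ) (H : Polynomial ℂ) : (GG D H).natDegree ≤ D := by
  rw [Polynomial.natDegree_le_iff_coeff_eq_zero]
  intro N hN
  rw [GG_coeff, if_neg (by omega), if_neg (by omega)]

theorem GG_eval_one (D : ℕ) (H : Polynomial ℂ) : (GG D H).eval 1 = 0 := by
  unfold GG
  simp [Polynomial.eval_finsetSum]

theorem GG_ode (D : ℕ) (H : Polynomial ℂ) (hH : H.natDegree < D) :
    Polynomial.X * Polynomial.derivative (GG D H) = Polynomial.C (D : ℂ) * GG D H - H := by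
  ext m
  rw [Polynomial.coeff_sub, Polynomial.coeff_C_mul]
  have h1 : (Polynomial.X * Polynomial.derivative (GG D H)).coeff m = m * (GG D H).coeff m := by
    rcases m with _ | m
    · simp
    · rw [Polynomial.coeff_X_mul, Polynomial.coeff_derivative]
      push_cast
      ring
  rw [h1, GG_coeff]
  by_cases h : m < D
  · rw [if_pos h]
    have : (D : ℂ) - m ≠ 0 := by
      rw [sub_ne_zero]
      exact_mod_cast (by omega : D ≠ m)
    field_simp
    ring
  · rw [if_neg h, Polynomial.coeff_eq_zero_of_natDegree_lt (by omega : H.natDegree < m)]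
    by_cases h2 : m = D
    · rw [if_pos h2, h2]; ring
    · rw [if_neg h2]; ring

theorem cubic_sum (n : ℕ) : ∑ x ∈ Finset.HasAntidiagonal.antidiagonal n,
    (((x.1 : ℝ) + 1) * ((x.2 : ℝ) + 1)) = ((n : ℝ) + 1) * (n + 2) * (n + 3) / 6 := by
  rw [Finset.Nat.sum_antidiagonal_eq_sum_range_succ (fun i j => ((i : ℝ) + 1) * ((j : ℝ) + 1))]
  have h : ∀ N : ℕ, ∀ M : ℝ, ∑ i ∈ Finset.range (N + 1), (((i : ℝ) + 1) * (M - i + 1)) =
      ((N : ℝ) + 1) * (N + 2) * (M + 1) / 2 - (N : ℝ) * (N + 1) * (N + 2) / 3 := by
    intro N M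
    induction N with
    | zero => simp
    | succ N ih =>
      rw [Finset.sum_range_succ, ih]
      push_cast
      ring
  have h2 : ∑ i ∈ Finset.range n.succ, (((i : ℝ) + 1) * (((n - i : ℕ) : ℝ) + 1)) =
      ∑ i ∈ Finset.range (n + 1), (((i : ℝ) + 1) * ((n : ℝ) - i + 1)) := by
    refine Finset.sum_congr rfl fun i hi => ?_
    rw [Finset.mem_range] at hi
    rw [Nat.cast_sub (by omega)]
  rw [h2, h n n]
  ring

theorem diag_poly (n : ℕ) : ∃ G : Polynomial ℂ,
    (∀ t : ℝ, U n t ((n : ℤ) + 1) = Complex.exp (-(Complex.I * ((n : ℂ) + 1) * t)) *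
      G.eval (Complex.exp (-(Complex.I * t)))) ∧ G.natDegree ≤ n * (n + 1) ∧
    ∃ c : ℝ, G.coeff 0 = (c : ℂ) ∧ 6 * ((n : ℝ) + 1) / 6 ^ (n + 1) ≤ c := by
  induction n using Nat.strong_induction_on with
  | _ n ih =>
    rcases n with _ | n
    · refine ⟨1, ?_, by simp, 1, by simp, by norm_num⟩
      intro t
      rw [U_zero]
      simp
    · choose! G hG1 hG2 c hG3 hG4 using ih
      set H : Polynomial ℂ := ∑ x ∈ Finset.HasAntidiagonal.antidiagonal n, G x.1 * G x.2 with hH
      have hlt : ∀ x ∈ Finset.HasAntidiagonal.antidiagonal n, x.1 < n + 1 ∧ x.2 < n + 1 := by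
        intro x hx
        have hx' := Finset.HasAntidiagonal.mem_antidiagonal.1 hx
        exact ⟨by omega, by omega⟩
      have hHdeg : H.natDegree ≤ n * (n + 1) := by
        refine Polynomial.natDegree_sum_le_of_forall_le _ _ fun x hx => ?_
        have hx' := Finset.HasAntidiagonal.mem_antidiagonal.1 hx
        refine Polynomial.natDegree_mul_le.trans ?_
        have h1 := hG2 x.1 (hlt x hx).1
        have h2 := hG2 x.2 (hlt x hx).2
        rw [← hx']
        nlinarith [Nat.zero_le (x.1 * x.2)]
      set D : ℕ := (n + 1) * (n + 2) with hD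
      have hDH : H.natDegree < D := by
        rw [hD]; nlinarith
      set F : ℝ → ℂ := fun t => Complex.exp (-(Complex.I * ((n : ℂ) + 2) * t)) *
        (GG D H).eval (Complex.exp (-(Complex.I * t))) with hF
      have hsrc : ∀ t : ℝ, src n t ((n : ℤ) + 2) =
          Complex.exp (-(Complex.I * ((n : ℂ) + 2) * t)) * H.eval (Complex.exp (-(Complex.I * t))) := by
        intro t
        rw [src_diag, hH, Polynomial.eval_finsetSum, Finset.mul_sum]
        refine Finset.sum_congr rfl fun x hx => ?_
        rw [hG1 x.1 (hlt x hx).1, hG1 x.2 (hlt x hx).2, Polynomial.eval_mul]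
        have hx' := Finset.HasAntidiagonal.mem_antidiagonal.1 hx
        have e : Complex.exp (-(Complex.I * ((n : ℂ) + 2) * t)) =
            Complex.exp (-(Complex.I * ((x.1 : ℂ) + 1) * t)) *
            Complex.exp (-(Complex.I * ((x.2 : ℂ) + 1) * t)) := by
          rw [← Complex.exp_add, ← hx']
          congr 1
          push_cast
          ring
        rw [e]
        ring
      have hFder : ∀ t : ℝ, HasDerivAt F (Complex.I * (-(((n : ℂ) + 2) ^ 2) * F t +
          src n t ((n : ℤ) + 2))) t := by
        intro t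
        have h1 : HasDerivAt (fun t : ℝ => -(Complex.I * ((n : ℂ) + 2) * (t : ℂ)))
            (-(Complex.I * ((n : ℂ) + 2) * 1)) t :=
          ((Complex.ofRealCLM.hasDerivAt (x := t)).const_mul (Complex.I * ((n : ℂ) + 2))).neg
        have h2 : HasDerivAt (fun t : ℝ => Complex.exp (-(Complex.I * (t : ℂ))))
            (Complex.exp (-(Complex.I * (t : ℂ))) * (-(Complex.I * 1))) t :=
          (((Complex.ofRealCLM.hasDerivAt (x := t)).const_mul Complex.I).neg).cexp
        have h3 := (((GG D H).hasDerivAt (Complex.exp (-(Complex.I * (t : ℂ))))).comp t h2)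
        refine (h1.cexp.mul h3).congr_deriv ?_
        have h4 := congrArg (Polynomial.eval (Complex.exp (-(Complex.I * (t : ℂ))))) (GG_ode D H hDH)
        rw [Polynomial.eval_mul, Polynomial.eval_sub, Polynomial.eval_mul, Polynomial.eval_X,
          Polynomial.eval_C] at h4
        rw [hsrc, hF]
        have hDc : (D : ℂ) = ((n : ℂ) + 1) * (n + 2) := by rw [hD]; push_cast; ring
        rw [hDc] at h4
        simp only [Function.comp]
        linear_combination (-(Complex.I * Complex.exp (-(Complex.I * ((n : ℂ) + 2) * t)))) * h4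
      have heq : ∀ t : ℝ, U (n + 1) t ((n : ℤ) + 2) = F t := by
        set g : ℝ → ℂ := fun t => Complex.exp (Complex.I * ((n : ℂ) + 2) ^ 2 * t) *
          (U (n + 1) t ((n : ℤ) + 2) - F t) with hg
        have hg' : ∀ t, HasDerivAt g 0 t := by
          intro t
          have h1 : HasDerivAt (fun t : ℝ => Complex.I * ((n : ℂ) + 2) ^ 2 * (t : ℂ))
              (Complex.I * ((n : ℂ) + 2) ^ 2 * 1) t :=
            (Complex.ofRealCLM.hasDerivAt (x := t)).const_mul _
          refine (h1.cexp.mul ((U_deriv_succ n t ((n : ℤ) + 2)).sub (hFder t))).congr_deriv ?_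
          simp only [Pi.sub_apply]
          push_cast
          ring
        have hconst := is_const_of_deriv_eq_zero (f := g) (fun t => (hg' t).differentiableAt)
          (fun t => (hg' t).deriv)
        intro t
        have h1 := hconst t 0
        have h2 : g 0 = 0 := by
          simp only [hg, U_init, hF]
          simp [GG_eval_one]
        rw [h2] at h1
        have h3 := mul_eq_zero.1 h1
        rcases h3 with h3 | h3
        · exact absurd h3 (Complex.exp_ne_zero _)
        · exact sub_eq_zero.1 h3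
      refine ⟨GG D H, ?_, ?_, ?_⟩
      · intro t
        have := heq t
        rw [hF] at this
        push_cast
        rw [show (n : ℤ) + 1 + 1 = (n : ℤ) + 2 by ring, this]
        congr 3
        ring
      · refine (GG_natDegree D H).trans (le_of_eq ?_)
        rw [hD]
      · have hc0 : H.coeff 0 = ((∑ x ∈ Finset.HasAntidiagonal.antidiagonal n, c x.1 * c x.2 : ℝ) : ℂ) := by
          rw [hH, Polynomial.finsetSum_coeff]
          push_cast
          refine Finset.sum_congr rfl fun x hx => ?_
          rw [Polynomial.mul_coeff_zero, hG3 x.1 (hlt x hx).1, hG3 x.2 (hlt x hx).2]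
        refine ⟨(∑ x ∈ Finset.HasAntidiagonal.antidiagonal n, c x.1 * c x.2) / (D : ℝ), ?_, ?_⟩
        · rw [GG_coeff, if_pos (by rw [hD]; positivity), hc0]
          push_cast
          simp
        · rw [le_div_iff₀ (by rw [hD]; positivity)]
          have h1 : ∀ x ∈ Finset.HasAntidiagonal.antidiagonal n,
              36 / 6 ^ (n + 2) * (((x.1 : ℝ) + 1) * ((x.2 : ℝ) + 1)) ≤ c x.1 * c x.2 := by
            intro x hx
            have hx' := Finset.HasAntidiagonal.mem_antidiagonal.1 hx
            have e1 := hG4 x.1 (hlt x hx).1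
            have e2 := hG4 x.2 (hlt x hx).2
            refine le_trans (le_of_eq ?_) (mul_le_mul e1 e2 (by positivity)
              (le_trans (by positivity) e1))
            rw [← hx']
            have : (6 : ℝ) ^ (x.1 + x.2 + 2) = 6 ^ (x.1 + 1) * 6 ^ (x.2 + 1) := by ring
            rw [this]
            field_simp
            norm_num
          refine le_trans (le_of_eq_of_le (b := (36 : ℝ) / 6 ^ (n + 2) *
            (((n : ℝ) + 1) * (n + 2) * (n + 2) / 6)) ?_ ?_) (Finset.sum_le_sum h1)
          · rw [hD]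
            push_cast
            field_simp
            ring
          · rw [← Finset.mul_sum, cubic_sum]
            refine mul_le_mul_of_nonneg_left ?_ (by positivity)
            have : ((n : ℝ) + 1) * (n + 2) * (n + 2) ≤ ((n : ℝ) + 1) * (n + 2) * (n + 3) := by
              refine mul_le_mul_of_nonneg_left ?_ (by positivity)
              linarith
            linarith

/-- lower bound for the maximum of the diagonal coefficients -/
theorem diag_lower (n : ℕ) {R : ℝ}
    (hR : ∀ t ∈ Icc 0 (2 * Real.pi), ‖U n t ((n : ℤ) + 1)‖ ≤ R) :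
    6 * ((n : ℝ) + 1) / 6 ^ (n + 1) ≤ R := by
  obtain ⟨G, hG1, -, c, hc, hc2⟩ := diag_poly n
  have hcirc : ∀ w : ℂ, ‖w‖ = 1 → ‖G.eval w‖ ≤ R := by
    intro w hw
    have hw' : w = Complex.exp (Complex.arg w * Complex.I) := by
      have := Complex.norm_mul_exp_arg_mul_I w
      rw [hw] at this
      simpa using this.symm
    obtain ⟨t, ht, htw⟩ : ∃ t ∈ Icc 0 (2 * Real.pi), Complex.exp (-(Complex.I * (t : ℝ))) = w := by
      by_cases h : Complex.arg w ≤ 0
      · refine ⟨-Complex.arg w, ⟨by linarith, by linarith [Complex.neg_pi_lt_arg w, Real.pi_pos]⟩, ?_⟩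
        conv_rhs => rw [hw']
        congr 1
        push_cast
        ring
      · push Not at h
        refine ⟨2 * Real.pi - Complex.arg w, ⟨by linarith [Complex.arg_le_pi w, Real.pi_pos],
          by linarith⟩, ?_⟩
        conv_rhs => rw [hw']
        rw [Complex.exp_eq_exp_iff_exists_int]
        refine ⟨-1, ?_⟩
        push_cast
        ring
    have h1 := hR t ht
    rw [hG1 t, norm_mul, htw] at h1
    have h2 : ‖Complex.exp (-(Complex.I * ((n : ℂ) + 1) * t))‖ = 1 := by
      rw [Complex.norm_exp]
      simp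
    rw [h2, one_mul] at h1
    exact h1
  have hmax : ‖G.eval 0‖ ≤ R := by
    refine Complex.norm_le_of_forall_mem_frontier_norm_le (U := Metric.ball (0 : ℂ) 1)
      Metric.isBounded_ball (f := fun z => G.eval z) ?_ ?_ (subset_closure (by simp))
    · exact (G.differentiable).diffContOnCl
    · intro z hz
      rw [frontier_ball _ one_ne_zero] at hz
      exact hcirc z (by simpa using hz)
  rw [← Polynomial.coeff_zero_eq_eval_zero, hc, Complex.norm_real] at hmax
  exact hc2.trans ((le_abs_self c).trans hmax)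

end Pool.Agent.H329R3.NLS
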