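import Pool.Agent.H329R3.NLS.Comp

set_option autoImplicit false

open Set Filter Topology

namespace Pool.Agent.H329R3.NLS

/-- coefficients off the lattice `m ℤ` stay zero -/
theorem offlattice {m : ℤ} {T K : ℝ} {a : ℝ → ℤ → ℂ} {lam : ℤ → ℝ}
    (ha : ∀ k, ∀ t ∈ Icc 0 T, HasDerivWithinAt (fun s => a s k)
      (Complex.I * (-(lam k : ℂ) * a t k + conv (a t) (a t) k)) (Icc 0 T) t)
    (h0 : ∀ k, ¬ m ∣ k → a 0 k = 0) (hK : ∀ t ∈ Icc 0 T, Bd (a t) K)
    {t : ℝ} (ht : t ∈ Icc 0 T) {k : ℤ} (hk : ¬ m ∣ k) : a t k = 0 := by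
  classical
  have hT : 0 ≤ T := ht.1.trans ht.2
  have hK0 : 0 ≤ K := (hK 0 ⟨le_rfl, hT⟩).nonneg
  set d : ℝ → ℤ → ℂ := fun t k => if m ∣ k then 0 else a t k with hd
  set q : ℝ → ℤ → ℂ := fun t k => if m ∣ k then 0 else conv (a t) (a t) k with hq
  set e : ℝ → ℤ → ℂ := fun t k => if m ∣ k then a t k else 0 with he
  have hdbd : ∀ t ∈ Icc 0 T, Bd (d t) K := fun t ht => (hK t ht).of_le fun k => by
    simp only [hd]; split_ifs <;> simp
  have hebd : ∀ t ∈ Icc 0 T, Bd (e t) K := fun t ht => (hK t ht).of_le fun k => by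
    simp only [he]; split_ifs <;> simp
  have hde : ∀ t, a t = fun l => d t l + e t l := by
    intro t
    funext l
    simp only [hd, he]
    split_ifs <;> simp
  have h := gron (T := T) (d := d) (q := q) (lam := lam) ?_ ?_ (C := 2 * K) (ρ := 0) (M := K)
    (by positivity) le_rfl hK0 hdbd ?_ ht
  · have h1 := h.le k
    simp only [hd, if_neg hk] at h1
    have h2 : ‖a t k‖ ≤ 0 := by simpa using h1
    exact norm_le_zero_iff.1 h2
  · intro k t ht
    by_cases hk : m ∣ k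
    · simp only [hd, hq, if_pos hk]
      have := hasDerivWithinAt_const t (Icc 0 T) (0 : ℂ)
      simpa using this
    · simp only [hd, hq, if_neg hk]
      exact ha k t ht
  · intro k
    by_cases hk : m ∣ k
    · simp only [hd, if_pos hk]
    · simp only [hd, if_neg hk]
      exact h0 k hk
  · intro t ht D hD
    have h1 : Bd (fun k => conv (d t) (a t) k + conv (e t) (d t) k) (D * K + K * D) :=
      (conv_bd hD (hK t ht)).add (conv_bd (hebd t ht) hD)
    refine (h1.mono (by linarith)).of_le fun k => ?_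
    by_cases hk : m ∣ k
    · simp only [hq, if_pos hk, norm_zero]
      exact norm_nonneg _
    · have e1 : q t k = conv (d t) (a t) k + conv (e t) (d t) k := by
        simp only [hq, if_neg hk]
        have e2 : conv (a t) (a t) k = conv (fun l => d t l + e t l) (a t) k := by rw [← hde]
        rw [e2, conv_add_left (hdbd t ht) (hebd t ht) (hK t ht)]
        congr 1
        have e3 : conv (e t) (a t) k = conv (e t) (fun l => d t l + e t l) k := by rw [← hde]
        rw [e3, conv_add_right (hebd t ht) (hdbd t ht) (hebd t ht)]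
        have e4 : conv (e t) (e t) k = 0 := by
          unfold conv
          refine (tsum_congr fun l => ?_).trans tsum_zero
          by_cases hl : m ∣ l
          · have : ¬ m ∣ k - l := fun h => hk (by simpa using dvd_add h hl)
            simp only [he, if_neg this, mul_zero]
          · simp only [he, if_neg hl, zero_mul]
        rw [e4, add_zero]
      rw [e1]

/-- rescaling `m ℤ`-periodic solutions -/
noncomputable def resc (m : ℕ) (a : ℝ → ℤ → ℂ) (t : ℝ) (k : ℤ) : ℂ :=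
  (((2 * Real.pi * m) ^ 2 : ℝ) : ℂ)⁻¹ * a (t / (2 * Real.pi * m) ^ 2) (m * k)

theorem resc_conv {m : ℕ} (hm : 1 ≤ m) {a : ℤ → ℂ} (hoff : ∀ k : ℤ, ¬ (m : ℤ) ∣ k → a k = 0)
    (k : ℤ) : conv a a (m * k) = conv (fun l => a (m * l)) (fun l => a (m * l)) k := by
  unfold conv
  have hm0 : (m : ℤ) ≠ 0 := by exact_mod_cast (by omega : m ≠ 0)
  have hinj : Function.Injective fun l : ℤ => (m : ℤ) * l := mul_right_injective₀ hm0
  have h := hinj.tsum_eq (f := fun j : ℤ => a j * a (m * k - j)) (by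
    intro j hj
    by_contra hj'
    apply hj
    have : ¬ (m : ℤ) ∣ j := by
      rintro ⟨l, rfl⟩
      exact hj' ⟨l, rfl⟩
    simp only [hoff j this, zero_mul])
  rw [← h]
  refine tsum_congr fun l => ?_
  simp only [mul_sub]

theorem resc_deriv {m : ℕ} (hm : 1 ≤ m) {a : ℝ → ℤ → ℂ} {T : ℝ}
    (hT : T = 2 * Real.pi / (2 * Real.pi * m) ^ 2)
    (ha : ∀ k : ℤ, ∀ t ∈ Icc 0 T, HasDerivWithinAt (fun s => a s k)
      (Complex.I * (-((4 * Real.pi ^ 2 * (k : ℝ) ^ 2 : ℝ) : ℂ) * a t k + conv (a t) (a t) k))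
        (Icc 0 T) t)
    (hoff : ∀ t ∈ Icc 0 T, ∀ k : ℤ, ¬ (m : ℤ) ∣ k → a t k = 0) (k : ℤ) {t : ℝ}
    (ht : t ∈ Icc 0 (2 * Real.pi)) :
    HasDerivWithinAt (fun s => resc m a s k)
      (Complex.I * (-((k : ℂ) ^ 2) * resc m a t k + conv (resc m a t) (resc m a t) k))
      (Icc 0 (2 * Real.pi)) t := by
  have hm0 : (0 : ℝ) < m := by exact_mod_cast hm
  set W : ℝ := (2 * Real.pi * m) ^ 2 with hW
  have hW0 : 0 < W := by positivity
  have hmaps : MapsTo (fun s : ℝ => s / W) (Icc 0 (2 * Real.pi)) (Icc 0 T) := by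
    intro s hs
    rw [hT]
    exact ⟨div_nonneg hs.1 hW0.le, div_le_div_of_nonneg_right hs.2 hW0.le⟩
  have h1 := ha (m * k) (t / W) (hmaps ht)
  have h2 : HasDerivWithinAt (fun s : ℝ => s / W) (1 / W) (Icc 0 (2 * Real.pi)) t :=
    ((hasDerivAt_id t).div_const W).hasDerivWithinAt
  have h3 := (HasDerivWithinAt.scomp t h1 h2 hmaps).const_mul (((W : ℝ) : ℂ)⁻¹)
  refine (h3.congr_deriv ?_).congr (fun s _ => rfl) rfl
  have e1 : conv (a (t / W)) (a (t / W)) (m * k) = (W : ℂ) ^ 2 * conv (resc m a t) (resc m a t) k := by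
    rw [resc_conv hm (hoff _ (hmaps ht))]
    have : resc m a t = fun l => ((W : ℝ) : ℂ)⁻¹ * a (t / W) (m * l) := rfl
    rw [this, conv_smul_left, conv_smul_right]
    have hWc : (W : ℂ) ≠ 0 := by exact_mod_cast hW0.ne'
    field_simp
  rw [e1]
  have e2 : resc m a t k = ((W : ℝ) : ℂ)⁻¹ * a (t / W) (m * k) := rfl
  rw [e2]
  have hWc : (W : ℂ) ≠ 0 := by exact_mod_cast hW0.ne'
  have e3 : ((4 * Real.pi ^ 2 * ((((m : ℤ) * k : ℤ)) : ℝ) ^ 2 : ℝ) : ℂ) = W * (k : ℂ) ^ 2 := by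
    rw [hW]
    push_cast
    ring
  rw [e3, Complex.real_smul]
  push_cast
  field_simp

theorem resc_bd {m : ℕ} (hm : 1 ≤ m) {a : ℝ → ℤ → ℂ} {t K : ℝ}
    (hK : Bd (a (t / (2 * Real.pi * m) ^ 2)) K) : Bd (resc m a t) K := by
  have hm0 : (m : ℤ) ≠ 0 := by exact_mod_cast (by omega : m ≠ 0)
  have hinj : Function.Injective fun l : ℤ => (m : ℤ) * l := mul_right_injective₀ hm0
  have hmr : (1 : ℝ) ≤ m := by exact_mod_cast hm
  have hW1 : 1 ≤ (2 * Real.pi * m) ^ 2 := by
    apply one_le_pow₀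
    nlinarith [Real.pi_gt_three]
  intro F
  have h := hK (F.image fun l : ℤ => (m : ℤ) * l)
  rw [Finset.sum_image (fun a _ b _ h => hinj h)] at h
  refine le_trans (Finset.sum_le_sum fun k _ => ?_) h
  unfold resc
  rw [norm_mul, norm_inv, Complex.norm_real, Real.norm_of_nonneg (by positivity)]
  calc ((2 * Real.pi * m) ^ 2)⁻¹ * ‖a (t / (2 * Real.pi * m) ^ 2) (m * k)‖
      ≤ 1 * ‖a (t / (2 * Real.pi * m) ^ 2) (m * k)‖ :=
        mul_le_mul_of_nonneg_right (inv_le_one_of_one_le₀ hW1) (norm_nonneg _)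
    _ = _ := one_mul _

end Pool.Agent.H329R3.NLS
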