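import Pool.Agent.H329R3.NLS.Poly
import Pool.Agent.H329R3.NLS.Lattice

set_option autoImplicit false

open Set Filter Topology MeasureTheory

namespace Pool.Agent.H329R3.NLS

/-- `a` solves the rescaled equation on `[0, 2π]` with datum `s (e^{ix} + e^{-ix})` -/
structure RSol (s : ℝ) (a : ℝ → ℤ → ℂ) : Prop where
  deriv : ∀ k, ∀ t ∈ Icc 0 (2 * Real.pi), HasDerivWithinAt (fun s => a s k)
      (Complex.I * (-((k : ℂ) ^ 2) * a t k + conv (a t) (a t) k)) (Icc 0 (2 * Real.pi)) t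
  init : ∀ k, a 0 k = if k = 1 ∨ k = -1 then (s : ℂ) else 0
  bdd : ∃ K, ∀ t ∈ Icc 0 (2 * Real.pi), Bd (a t) K

theorem resc_contra {b r : ℝ} (hb : 0 < b)
    (hbs : 48 * (4 * Real.pi) * (16 * Real.pi ^ 2 * b) ≤ 1 / 10) (hr : 0 < r)
    (hL : 336 ≤ √(b / 2) * r) :
    ∃ p ∈ Icc (b / 2) b, ¬ ∃ a : ℝ → ℤ → ℂ, RSol (√p) a ∧ ∃ J : ℝ,
      ∀ t ∈ Icc 0 (2 * Real.pi), ∀ κ : ℕ, ‖a t ((κ : ℤ) + 1)‖ * r ^ (κ + 1) ≤ J := by
  by_contra hcon
  push Not at hcon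
  have hpi := Real.pi_gt_three
  set E : ℕ → Set ℝ := fun J => {p | p ∈ Icc (b / 2) b ∧ ∃ a : ℝ → ℤ → ℂ, RSol (√p) a ∧
      ∀ t ∈ Icc 0 (2 * Real.pi), ∀ κ : ℕ, ‖a t ((κ : ℤ) + 1)‖ * r ^ (κ + 1) ≤ (J : ℝ)} with hE
  have hmono : Monotone E := by
    intro J J' hJ p hp
    obtain ⟨hp1, a, ha, h⟩ := hp
    refine ⟨hp1, a, ha, fun t ht κ => (h t ht κ).trans ?_⟩
    exact_mod_cast hJ
  have hunion : ⋃ J, E J = Icc (b / 2) b := by
    ext p
    rw [mem_iUnion]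
    constructor
    · rintro ⟨J, hp, -⟩
      exact hp
    · intro hp
      obtain ⟨a, ha, J, hJ⟩ := hcon p hp
      obtain ⟨J', hJ'⟩ := exists_nat_ge J
      exact ⟨J', hp, a, ha, fun t ht κ => (hJ t ht κ).trans hJ'⟩
  obtain ⟨J, hJ⟩ : ∃ J, ENNReal.ofReal (b / 4) < volume (E J) := by
    have h1 : volume (⋃ J, E J) = ⨆ J, volume (E J) := hmono.measure_iUnion
    rw [hunion, Real.volume_Icc] at h1
    rw [← lt_iSup_iff, ← h1]
    rw [ENNReal.ofReal_lt_ofReal_iff (by linarith)]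
    linarith
  have hU : ∀ κ : ℕ, ∀ t ∈ Icc 0 (2 * Real.pi), ‖U κ t ((κ : ℤ) + 1)‖ ≤
      48 * (J * (1 / 7) ^ (κ + 1) + (1 / 10) ^ (κ + 1)) := by
    intro κ t ht
    set η : ℝ := J * (1 / 336) ^ (κ + 1) + (4 * Real.pi) ^ (κ + 1) *
      (16 * Real.pi ^ 2 * b) ^ (κ + 1) with hη
    have h1 : ∀ p ∈ E J, ‖(pol κ (κ + 1) t).eval (p : ℂ)‖ ≤ η := by
      rintro p ⟨hp, a, ha, h⟩
      have hp0 : 0 < p := lt_of_lt_of_le (by linarith) hp.1
      have hs : 0 < √p := Real.sqrt_pos.2 hp0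
      have hsq : √p ^ 2 = p := Real.sq_sqrt hp0.le
      have hs8 : 8 * Real.pi * √p ≤ 1 := by
        have h64 : (8 * Real.pi * √p) ^ 2 ≤ 1 := by
          rw [mul_pow, hsq]
          have : 64 * Real.pi ^ 2 * b ≤ 1 := by
            have h0 : 0 ≤ Real.pi ^ 2 * b := by positivity
            nlinarith [mul_le_mul_of_nonneg_right hpi.le h0]
          nlinarith [mul_le_mul_of_nonneg_left hp.2 (sq_nonneg (8 * Real.pi))]
        exact (sq_le_one_iff₀ (by positivity)).1 h64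
      obtain ⟨K, hK⟩ := ha.bdd
      have h2 := pol_est hs hs8 ha.deriv ha.init hK ht κ (κ + 1)
      have hc : ((√p : ℝ) : ℂ) ^ 2 = (p : ℂ) := by
        rw [← Complex.ofReal_pow, hsq]
      rw [hc, hsq] at h2
      refine h2.trans (add_le_add ?_ ?_)
      · -- decay
        have h3 := h t ht κ
        have hsr : 336 ≤ √p * r := by
          refine hL.trans (mul_le_mul_of_nonneg_right ?_ hr.le)
          exact Real.sqrt_le_sqrt hp.1
        have hrp : 0 < r ^ (κ + 1) := by positivity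
        have h4 : ‖a t ((κ : ℤ) + 1)‖ ≤ J * (r ^ (κ + 1))⁻¹ := by
          rw [← div_eq_mul_inv, le_div_iff₀ hrp]
          exact h3
        calc (√p ^ (κ + 1))⁻¹ * ‖a t ((κ : ℤ) + 1)‖
            ≤ (√p ^ (κ + 1))⁻¹ * (J * (r ^ (κ + 1))⁻¹) :=
              mul_le_mul_of_nonneg_left h4 (by positivity)
          _ = J * (1 / (√p * r)) ^ (κ + 1) := by
              rw [one_div, inv_pow, mul_pow, mul_inv]; ring
          _ ≤ J * (1 / 336) ^ (κ + 1) := by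
              refine mul_le_mul_of_nonneg_left ?_ (Nat.cast_nonneg J)
              exact pow_le_pow_left₀ (by positivity)
                (one_div_le_one_div_of_le (by norm_num) hsr) _
      · refine mul_le_mul_of_nonneg_left ?_ (by positivity)
        refine pow_le_pow_left₀ (by positivity) ?_ _
        exact mul_le_mul_of_nonneg_left hp.2 (by positivity)
    have h2 := remez hb (fun p hp => hp.1) hJ.le (κ + 1) (pol κ (κ + 1) t)
      (pol_natDegree κ (κ + 1) t) h1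
    rw [pol_zero] at h2
    refine h2.trans ?_
    have e1 : (48 : ℝ) ^ (κ + 1 + 1) * η = 48 * (J * (1 / 7) ^ (κ + 1) +
        (48 * (4 * Real.pi) * (16 * Real.pi ^ 2 * b)) ^ (κ + 1)) := by
      rw [hη, pow_succ (48 : ℝ) (κ + 1), mul_pow _ (16 * Real.pi ^ 2 * b), mul_pow 48]
      have : (1 / 7 : ℝ) ^ (κ + 1) = 48 ^ (κ + 1) * (1 / 336) ^ (κ + 1) := by
        rw [← mul_pow]; norm_num
      rw [this]
      ring
    rw [e1]
    have : (48 * (4 * Real.pi) * (16 * Real.pi ^ 2 * b)) ^ (κ + 1) ≤ (1 / 10 : ℝ) ^ (κ + 1) :=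
      pow_le_pow_left₀ (by positivity) hbs _
    linarith
  have h1 := diag_lower (8 * J + 8) (hU (8 * J + 8))
  have h6 : (0 : ℝ) < 6 ^ (8 * J + 8 + 1) := by positivity
  rw [div_le_iff₀ h6] at h1
  have h7 : ((1 / 7 : ℝ)) ^ (8 * J + 8 + 1) * 6 ^ (8 * J + 8 + 1) ≤ 1 := by
    rw [← mul_pow]
    exact pow_le_one₀ (by norm_num) (by norm_num)
  have h10 : ((1 / 10 : ℝ)) ^ (8 * J + 8 + 1) * 6 ^ (8 * J + 8 + 1) ≤ 1 := by
    rw [← mul_pow]
    exact pow_le_one₀ (by norm_num) (by norm_num)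
  have hJ0 : (0 : ℝ) ≤ J := Nat.cast_nonneg J
  have h8 : (J : ℝ) * ((1 / 7 : ℝ) ^ (8 * J + 8 + 1) * 6 ^ (8 * J + 8 + 1)) ≤ J * 1 :=
    mul_le_mul_of_nonneg_left h7 hJ0
  push_cast at h1
  nlinarith

end Pool.Agent.H329R3.NLS
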