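import Pool.Agent.H329R3.NLS.Conv

set_option autoImplicit false

open Set Filter Topology

namespace Pool.Agent.H329R3.NLS

/-- one step of the comparison: bound of the forcing term gives bound of the solution -/
theorem step {T : ℝ} {d q : ℝ → ℤ → ℂ} {lam : ℤ → ℝ}
    (hd : ∀ k, ∀ t ∈ Icc 0 T, HasDerivWithinAt (fun s => d s k)
      (Complex.I * (-(lam k : ℂ) * d t k + q t k)) (Icc 0 T) t)
    (h0 : ∀ k, d 0 k = 0) {B B' : ℝ → ℝ} (hB0 : 0 ≤ B 0) (hB : ∀ t, HasDerivAt B (B' t) t)
    (hq : ∀ t ∈ Icc 0 T, Bd (q t) (B' t)) {t : ℝ} (ht : t ∈ Icc 0 T) : Bd (d t) (B t) := by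
  intro F
  -- unimodular constants
  have hθ : ∀ k : ℤ, ∃ θ : ℂ, ‖θ‖ = 1 ∧
      θ * (Complex.exp (Complex.I * lam k * t) * d t k) = (‖d t k‖ : ℂ) := by
    intro k
    set w : ℂ := Complex.exp (Complex.I * lam k * t) * d t k with hw
    have hnw : ‖w‖ = ‖d t k‖ := by
      rw [hw, norm_mul]
      have : ‖Complex.exp (Complex.I * lam k * t)‖ = 1 := by
        rw [Complex.norm_exp]
        simp
      rw [this, one_mul]
    by_cases hz : w = 0
    · refine ⟨1, by simp, ?_⟩
      rw [← hnw, hz]; simp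
    · refine ⟨(starRingEnd ℂ) w / ‖w‖, ?_, ?_⟩
      · rw [norm_div, RCLike.norm_conj, Complex.norm_real, norm_norm, div_self (norm_ne_zero_iff.2 hz)]
      · rw [← hnw]
        have h1 : (starRingEnd ℂ) w * w = (‖w‖ : ℂ) ^ 2 := by
          rw [mul_comm, Complex.mul_conj, Complex.normSq_eq_norm_sq]
          push_cast; rfl
        have h2 : (‖w‖ : ℂ) ≠ 0 := by exact_mod_cast norm_ne_zero_iff.2 hz
        field_simp
        linear_combination h1
  choose θ hθ1 hθ2 using hθ
  set f : ℝ → ℂ := fun s => ∑ k ∈ F, θ k * (Complex.exp (Complex.I * lam k * s) * d s k) with hf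
  have hderiv : ∀ s ∈ Icc 0 T, HasDerivWithinAt f
      (∑ k ∈ F, θ k * (Complex.exp (Complex.I * lam k * s) * (Complex.I * q s k))) (Icc 0 T) s := by
    intro s hs
    have : HasDerivWithinAt (fun s : ℝ => ∑ k ∈ F, θ k * (Complex.exp (Complex.I * lam k * s) * d s k))
      (∑ k ∈ F, θ k * (Complex.exp (Complex.I * lam k * s) * (Complex.I * q s k))) (Icc 0 T) s := by
      refine HasDerivWithinAt.fun_sum fun k _ => ?_
      have h1 : HasDerivAt (fun s : ℝ => Complex.I * lam k * (s : ℂ)) (Complex.I * lam k * 1) s :=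
        (Complex.ofRealCLM.hasDerivAt (x := s)).const_mul _
      have h2 := (h1.cexp.hasDerivWithinAt (s := Icc 0 T)).mul (hd k s hs)
      refine (h2.const_mul (θ k)).congr_deriv ?_
      ring
    exact this
  have hnorm : ∀ s ∈ Icc 0 T,
      ‖∑ k ∈ F, θ k * (Complex.exp (Complex.I * lam k * s) * (Complex.I * q s k))‖ ≤ B' s := by
    intro s hs
    refine (norm_sum_le _ _).trans (le_trans (le_of_eq ?_) (hq s hs F))
    refine Finset.sum_congr rfl fun k _ => ?_
    rw [norm_mul, norm_mul, norm_mul, hθ1]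
    have : ‖Complex.exp (Complex.I * lam k * s)‖ = 1 := by
      rw [Complex.norm_exp]
      simp
    rw [this]; simp
  have hcont : ContinuousOn f (Icc 0 T) := fun s hs => (hderiv s hs).continuousWithinAt
  have key := image_norm_le_of_norm_deriv_right_le_deriv_boundary (f := f)
    (f' := fun s => ∑ k ∈ F, θ k * (Complex.exp (Complex.I * lam k * s) * (Complex.I * q s k)))
    (a := 0) (b := T) hcont
    (fun s hs => (hderiv s ⟨hs.1, hs.2.le⟩).mono_of_mem_nhdsWithin (Icc_mem_nhdsGE_of_mem hs))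
    (B := B) (B' := B') (by simp [hf, h0, hB0]) hB (fun s hs => hnorm s ⟨hs.1, hs.2.le⟩) ht
  have e : f t = ((∑ k ∈ F, ‖d t k‖ : ℝ) : ℂ) := by
    rw [hf]
    simp only [hθ2]
    push_cast
    rfl
  rw [e, Complex.norm_real, Real.norm_of_nonneg (Finset.sum_nonneg fun _ _ => norm_nonneg _)] at key
  exact key

/-- Gronwall type estimate -/
theorem gron {T : ℝ} {d q : ℝ → ℤ → ℂ} {lam : ℤ → ℝ}
    (hd : ∀ k, ∀ t ∈ Icc 0 T, HasDerivWithinAt (fun s => d s k)
      (Complex.I * (-(lam k : ℂ) * d t k + q t k)) (Icc 0 T) t)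
    (h0 : ∀ k, d 0 k = 0) {C ρ M : ℝ} (hC : 0 ≤ C) (hρ : 0 ≤ ρ) (hM : 0 ≤ M)
    (hbd : ∀ t ∈ Icc 0 T, Bd (d t) M)
    (hq : ∀ t ∈ Icc 0 T, ∀ D, Bd (d t) D → Bd (q t) (C * D + ρ)) {t : ℝ} (ht : t ∈ Icc 0 T) :
    Bd (d t) (ρ * t * Real.exp (C * t)) := by
  have key : ∀ n : ℕ, ∀ t ∈ Icc 0 T,
      Bd (d t) (M * (C * t) ^ n / n.factorial + ρ * t * Real.exp (C * t)) := by
    intro n
    induction n with
    | zero =>
      intro t ht
      refine (hbd t ht).mono ?_
      have : 0 ≤ ρ * t * Real.exp (C * t) :=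
        mul_nonneg (mul_nonneg hρ ht.1) (Real.exp_pos _).le
      simp [this]
    | succ n ih =>
      intro t ht
      refine step (B := fun t => M * (C * t) ^ (n + 1) / (n + 1).factorial +
          ρ * t * Real.exp (C * t))
        (B' := fun t => M * ((C * t) ^ n * C) / n.factorial +
          (ρ * Real.exp (C * t) + ρ * t * (Real.exp (C * t) * C))) hd h0 ?_ ?_ ?_ ht
      · simp
      · intro t
        have h1 : HasDerivAt (fun t : ℝ => C * t) (C * 1) t := (hasDerivAt_id t).const_mul C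
        have h2 : HasDerivAt (fun t : ℝ => (C * t) ^ (n + 1)) (((n + 1 : ℕ) : ℝ) * (C * t) ^ n * (C * 1)) t := by
          simpa using h1.fun_pow (n + 1)
        have h3 : HasDerivAt (fun t : ℝ => M * (C * t) ^ (n + 1) / (n + 1).factorial)
            (M * (((n + 1 : ℕ) : ℝ) * (C * t) ^ n * (C * 1)) / (n + 1).factorial) t :=
          (h2.const_mul M).div_const _
        have h4 : HasDerivAt (fun t : ℝ => ρ * t * Real.exp (C * t))
            (ρ * 1 * Real.exp (C * t) + ρ * t * (Real.exp (C * t) * (C * 1))) t :=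
          ((hasDerivAt_id t).const_mul ρ).mul h1.exp
        refine (h3.add h4).congr_deriv ?_
        have hf : ((n + 1).factorial : ℝ) = (n + 1) * n.factorial := by
          rw [Nat.factorial_succ]; push_cast; ring
        rw [hf]
        have hn : ((n : ℝ) + 1) ≠ 0 := by positivity
        have hn' : (n.factorial : ℝ) ≠ 0 := by positivity
        push_cast
        field_simp
      · intro s hs
        refine (hq s hs _ (ih s hs)).mono ?_
        have h1 : 1 ≤ Real.exp (C * s) := Real.one_le_exp (mul_nonneg hC hs.1)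
        have h2 : ρ ≤ ρ * Real.exp (C * s) := le_mul_of_one_le_right hρ h1
        have h3 : C * (M * (C * s) ^ n / n.factorial + ρ * s * Real.exp (C * s)) + ρ =
          M * ((C * s) ^ n * C) / n.factorial + (ρ + ρ * s * (Real.exp (C * s) * C)) := by
          field_simp
          ring
        rw [h3]
        linarith
  have hlim : Tendsto (fun n : ℕ => M * (C * t) ^ n / n.factorial + ρ * t * Real.exp (C * t)) atTop
      (𝓝 (ρ * t * Real.exp (C * t))) := by
    have h1 := (FloorSemiring.tendsto_pow_div_factorial_atTop (C * t)).const_mul M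
    have h2 : Tendsto (fun n : ℕ => M * (C * t) ^ n / n.factorial) atTop (𝓝 0) := by
      simpa [mul_div_assoc] using h1
    simpa using h2.add_const (ρ * t * Real.exp (C * t))
  intro F
  exact ge_of_tendsto' hlim fun n => key n t ht F

end Pool.Agent.H329R3.NLS
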