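import Pool.Agent.H329R3.NLS.Final

set_option autoImplicit false

open Set Filter Topology MeasureTheory

namespace Pool.Agent.H329R3.NLS

theorem orig_contra {ν : ℝ} (hν : 1 < ν) {m : ℕ} (hm : 1 ≤ m) {b : ℝ} (hb : 0 < b)
    (hbs : 48 * (4 * Real.pi) * (16 * Real.pi ^ 2 * b) ≤ 1 / 10)
    (hL : 336 ≤ √(b / 2) * ν ^ m) :
    ∃ p ∈ Icc (b / 2) b, ¬ ∃ a : ℝ → ℤ → ℂ,
      (∀ k : ℤ, ∀ t ∈ Icc 0 (2 * Real.pi / (2 * Real.pi * m) ^ 2),
        HasDerivWithinAt (fun s => a s k)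
          (Complex.I * (-((4 * Real.pi ^ 2 * (k : ℝ) ^ 2 : ℝ) : ℂ) * a t k + conv (a t) (a t) k))
            (Icc 0 (2 * Real.pi / (2 * Real.pi * m) ^ 2)) t) ∧
      (∀ k : ℤ, a 0 k = if k = m ∨ k = -m then (((2 * Real.pi * m) ^ 2 * √p : ℝ) : ℂ) else 0) ∧
      ∃ K : ℝ, ∀ t ∈ Icc 0 (2 * Real.pi / (2 * Real.pi * m) ^ 2),
        Bd (fun k => a t k * ν ^ k.natAbs) K := by
  obtain ⟨p, hp, hno⟩ := resc_contra (r := ν ^ m) hb hbs (by positivity) hL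
  refine ⟨p, hp, ?_⟩
  rintro ⟨a, ha, h0, K, hK⟩
  apply hno
  have hm0 : (0 : ℝ) < m := by exact_mod_cast hm
  have hmZ : (m : ℤ) ≠ 0 := by exact_mod_cast (by omega : m ≠ 0)
  have hpi := Real.pi_gt_three
  set W : ℝ := (2 * Real.pi * m) ^ 2 with hW
  have hW0 : 0 < W := by positivity
  have hWc : (W : ℂ) ≠ 0 := by exact_mod_cast hW0.ne'
  have hmaps : ∀ s ∈ Icc 0 (2 * Real.pi), s / W ∈ Icc 0 (2 * Real.pi / W) := by
    intro s hs
    exact ⟨div_nonneg hs.1 hW0.le, div_le_div_of_nonneg_right hs.2 hW0.le⟩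
  have hKa : ∀ t ∈ Icc 0 (2 * Real.pi / W), Bd (a t) K := fun t ht => (hK t ht).of_le fun k => by
    rw [norm_mul]
    have h1 : (1 : ℝ) ≤ ‖(ν : ℂ) ^ k.natAbs‖ := by
      rw [norm_pow, Complex.norm_real, Real.norm_of_nonneg (by linarith)]
      exact one_le_pow₀ hν.le
    nlinarith [norm_nonneg (a t k)]
  have hoff : ∀ t ∈ Icc 0 (2 * Real.pi / W), ∀ k : ℤ, ¬ (m : ℤ) ∣ k → a t k = 0 := by
    intro t ht k hk
    refine offlattice (lam := fun k : ℤ => 4 * Real.pi ^ 2 * (k : ℝ) ^ 2) ha ?_ hKa ht hk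
    intro k hk
    rw [h0, if_neg]
    rintro (h | h)
    · exact hk (by rw [h])
    · exact hk (by rw [h]; exact (dvd_neg.2 dvd_rfl))
  refine ⟨resc m a, ⟨?_, ?_, K, ?_⟩, K, ?_⟩
  · intro k t ht
    exact resc_deriv hm rfl ha hoff k ht
  · intro k
    unfold resc
    rw [zero_div, h0]
    have e1 : ((m : ℤ) * k = m ∨ (m : ℤ) * k = -m) ↔ (k = 1 ∨ k = -1) := by
      constructor
      · rintro (h | h)
        · left
          exact mul_left_cancel₀ hmZ (by rw [h, mul_one])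
        · right
          exact mul_left_cancel₀ hmZ (by rw [h, mul_neg, mul_one])
      · rintro (h | h)
        · left; rw [h, mul_one]
        · right; rw [h, mul_neg, mul_one]
    by_cases hk : k = 1 ∨ k = -1
    · rw [if_pos (e1.2 hk), if_pos hk]
      show ((W : ℝ) : ℂ)⁻¹ * ((W * √p : ℝ) : ℂ) = ((√p : ℝ) : ℂ)
      rw [Complex.ofReal_mul, ← mul_assoc, inv_mul_cancel₀ hWc, one_mul]
    · rw [if_neg (fun h => hk (e1.1 h)), if_neg hk, mul_zero]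
  · intro t ht
    exact resc_bd hm (hKa _ (hmaps t ht))
  · intro t ht κ
    have h1 := (hK _ (hmaps t ht)).le ((m : ℤ) * ((κ : ℤ) + 1))
    have e2 : ((m : ℤ) * ((κ : ℤ) + 1)).natAbs = m * (κ + 1) := by
      rw [Int.natAbs_mul]
      simp
      left
      omega
    rw [e2, norm_mul, norm_pow, Complex.norm_real, Real.norm_of_nonneg (by linarith)] at h1
    rw [← pow_mul]
    refine le_trans (mul_le_mul_of_nonneg_right ?_ (by positivity)) h1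
    unfold resc
    rw [norm_mul, norm_inv, Complex.norm_real, Real.norm_of_nonneg (by positivity)]
    have hmr : (1 : ℝ) ≤ m := by exact_mod_cast hm
    have hW1 : 1 ≤ W := by
      rw [hW]
      apply one_le_pow₀
      nlinarith [Real.pi_gt_three]
    calc ((2 * Real.pi * m) ^ 2)⁻¹ * ‖a (t / (2 * Real.pi * m) ^ 2) (m * ((κ : ℤ) + 1))‖
      ≤ 1 * ‖a (t / (2 * Real.pi * m) ^ 2) (m * ((κ : ℤ) + 1))‖ :=
        mul_le_mul_of_nonneg_right (inv_le_one_of_one_le₀ hW1) (norm_nonneg _)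
      _ = _ := one_mul _

theorem exists_param {ν ε : ℝ} (hν : 1 < ν) (hε : 0 < ε) :
    ∃ m : ℕ, 1 ≤ m ∧ ∃ b : ℝ, 0 < b ∧
      48 * (4 * Real.pi) * (16 * Real.pi ^ 2 * b) ≤ 1 / 10 ∧ 336 ≤ √(b / 2) * ν ^ m ∧
      (2 * Real.pi * m) ^ 2 * √b < ε ∧ 2 * Real.pi / (2 * Real.pi * m) ^ 2 < ε := by
  have hlim := tendsto_pow_const_div_const_pow_of_one_lt 2 hν
  have h1 : ∀ᶠ n : ℕ in atTop, (n : ℝ) ^ 2 / ν ^ n < min (ε / 26881) (1 / 10 ^ 6) :=
    hlim.eventually_lt_const (by positivity)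
  obtain ⟨m, h1, h2, h3⟩ := (h1.and ((eventually_ge_atTop 1).and
    (eventually_gt_atTop ⌈1 / ε⌉₊))).exists
  have hm1 : (1 : ℝ) ≤ m := by exact_mod_cast h2
  have hpi := Real.pi_gt_three
  have hpi2 : Real.pi < 3.15 := Real.pi_lt_d2
  have hνm : 0 < ν ^ m := by positivity
  set δ : ℝ := (m : ℝ) ^ 2 / ν ^ m with hδ
  have hδ0 : 0 < δ := by positivity
  have hδ1 : δ < ε / 26881 := lt_of_lt_of_le h1 (min_le_left _ _)
  have hδ2 : δ < 1 / 10 ^ 6 := lt_of_lt_of_le h1 (min_le_right _ _)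
  have hinv : 1 / ν ^ m ≤ δ := by
    rw [hδ]
    exact div_le_div_of_nonneg_right (by nlinarith) hνm.le
  have hinv0 : 0 < 1 / ν ^ m := by positivity
  refine ⟨m, h2, 2 * (336 * (1 / ν ^ m)) ^ 2, by positivity, ?_, ?_, ?_, ?_⟩
  · have hb : 2 * (336 * (1 / ν ^ m)) ^ 2 ≤ 1 / 10 ^ 6 := by
      have h4 : (1 / ν ^ m) ^ 2 ≤ (1 / 10 ^ 6) ^ 2 :=
        pow_le_pow_left₀ hinv0.le (hinv.trans hδ2.le) 2
      nlinarith
    have hb0 : 0 ≤ 2 * (336 * (1 / ν ^ m)) ^ 2 := by positivity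
    have hp3 : Real.pi ^ 3 ≤ 32 := by
      have : Real.pi ^ 3 ≤ 3.15 ^ 3 := pow_le_pow_left₀ Real.pi_pos.le hpi2.le 3
      nlinarith
    have e : 48 * (4 * Real.pi) * (16 * Real.pi ^ 2 * (2 * (336 * (1 / ν ^ m)) ^ 2)) =
      3072 * (Real.pi ^ 3 * (2 * (336 * (1 / ν ^ m)) ^ 2)) := by ring
    rw [e]
    have h5 : Real.pi ^ 3 * (2 * (336 * (1 / ν ^ m)) ^ 2) ≤ 32 * (1 / 10 ^ 6) :=
      mul_le_mul hp3 hb hb0 (by norm_num)
    linarith
  · have e : 2 * (336 * (1 / ν ^ m)) ^ 2 / 2 = (336 * (1 / ν ^ m)) ^ 2 := by ring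
    rw [e, Real.sqrt_sq (by positivity)]
    rw [mul_assoc, one_div_mul_cancel hνm.ne', mul_one]
  · have hs : √(2 * (336 * (1 / ν ^ m)) ^ 2) ≤ 2 * (336 * (1 / ν ^ m)) := by
      rw [Real.sqrt_le_left (by positivity)]
      nlinarith [sq_nonneg (336 * (1 / ν ^ m))]
    have h6 : (2 * Real.pi * m) ^ 2 * √(2 * (336 * (1 / ν ^ m)) ^ 2) ≤
        (2 * Real.pi * m) ^ 2 * (2 * (336 * (1 / ν ^ m))) :=
      mul_le_mul_of_nonneg_left hs (by positivity)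
    have e : (2 * Real.pi * m) ^ 2 * (2 * (336 * (1 / ν ^ m))) = 2688 * (Real.pi ^ 2 * δ) := by
      rw [hδ]; ring
    rw [e] at h6
    have h7 : Real.pi ^ 2 ≤ 10 := by nlinarith
    have h8 : Real.pi ^ 2 * δ ≤ 10 * δ := mul_le_mul_of_nonneg_right h7 hδ0.le
    rw [lt_div_iff₀ (by norm_num)] at hδ1
    linarith
  · have h9 : 1 / ε < m := lt_of_le_of_lt (Nat.le_ceil _) (by exact_mod_cast h3)
    rw [div_lt_iff₀ hε] at h9
    rw [div_lt_iff₀ (by positivity)]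
    have h10 : 1 < 2 * Real.pi * m := by nlinarith
    have h11 : 1 < (2 * Real.pi * m) * (m * ε) := by nlinarith
    calc 2 * Real.pi = 2 * Real.pi * 1 := by ring
      _ < 2 * Real.pi * ((2 * Real.pi * m) * (m * ε)) :=
        mul_lt_mul_of_pos_left h11 (by positivity)
      _ = ε * (2 * Real.pi * m) ^ 2 := by ring

end Pool.Agent.H329R3.NLS
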