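import Mathlib

set_option autoImplicit false

open Set Filter Topology MeasureTheory

namespace Pool.Agent.H329R3.NLS

theorem pick (n : ℕ) : ∀ S : Finset ℕ, 2 * n + 2 ≤ S.card →
    ∃ f : ℕ → ℕ, (∀ i ≤ n, f i ∈ S) ∧ ∀ i j, i ≤ j → j ≤ n → f i + 2 * (j - i) ≤ f j := by
  induction n with
  | zero =>
    intro S hS
    obtain ⟨x, hx⟩ : S.Nonempty := Finset.card_pos.1 (by omega)
    refine ⟨fun _ => x, fun _ _ => hx, fun i j hij hj => ?_⟩
    have : j - i = 0 := by omega
    simp [this]
  | succ n ih =>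
    intro S hS
    have hne : S.Nonempty := Finset.card_pos.1 (by omega)
    set M := S.max' hne
    have hM : M ∈ S := S.max'_mem hne
    have hc1 : (S.erase M).card = S.card - 1 := Finset.card_erase_of_mem hM
    have hne' : (S.erase M).Nonempty := Finset.card_pos.1 (by omega)
    set M' := (S.erase M).max' hne'
    have hM' : M' ∈ S.erase M := (S.erase M).max'_mem hne'
    have hc2 : ((S.erase M).erase M').card = (S.erase M).card - 1 := Finset.card_erase_of_mem hM'
    obtain ⟨f, hf1, hf2⟩ := ih ((S.erase M).erase M') (by omega)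
    have hlt : M' < M := by
      have h1 : M' ≤ M := S.le_max' _ (Finset.mem_of_mem_erase hM')
      have h2 : M' ≠ M := Finset.ne_of_mem_erase hM'
      omega
    have hfn : ∀ i ≤ n, f i + 2 ≤ M := by
      intro i hi
      have h := hf1 i hi
      have h1 : f i ≠ M' := Finset.ne_of_mem_erase h
      have h2 : f i ≤ M' := (S.erase M).le_max' _ (Finset.mem_of_mem_erase h)
      omega
    refine ⟨fun i => if i ≤ n then f i else M, ?_, ?_⟩
    · intro i hi
      dsimp only
      split_ifs with h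
      · exact Finset.mem_of_mem_erase (Finset.mem_of_mem_erase (hf1 i h))
      · exact hM
    · intro i j hij hj
      dsimp only
      by_cases h : j ≤ n
      · rw [if_pos (by omega), if_pos h]
        exact hf2 i j hij h
      · rw [if_neg h]
        by_cases h' : i ≤ n
        · rw [if_pos h']
          have h1 := hf2 i n h' le_rfl
          have h2 := hfn n le_rfl
          omega
        · rw [if_neg h']
          omega

/-- well separated points in a set of large outer measure -/
theorem nodes {b : ℝ} (hb : 0 < b) {E : Set ℝ} (hE : E ⊆ Icc (b / 2) b)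
    (hvol : ENNReal.ofReal (b / 4) ≤ volume E) (n : ℕ) :
    ∃ x : ℕ → ℝ, (∀ i ≤ n, x i ∈ E) ∧
      ∀ i j, i < j → j ≤ n → (b / (8 * (n + 1))) * ((j : ℝ) - i) ≤ x j - x i := by
  classical
  set δ : ℝ := b / (8 * (n + 1)) with hδ
  have hδ0 : 0 < δ := by positivity
  set κ : ℝ → ℕ := fun x => ⌊(x - b / 2) / δ⌋₊ with hκ
  have hκ1 : ∀ x ∈ E, b / 2 + κ x * δ ≤ x := by
    intro x hx
    have h0 : 0 ≤ (x - b / 2) / δ := div_nonneg (by linarith [(hE hx).1]) hδ0.le
    have := Nat.floor_le h0
    rw [le_div_iff₀ hδ0] at this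
    linarith
  have hκ2 : ∀ x ∈ E, x < b / 2 + (κ x + 1) * δ := by
    intro x hx
    have := Nat.lt_floor_add_one ((x - b / 2) / δ)
    rw [div_lt_iff₀ hδ0] at this
    linarith
  have hκ3 : ∀ x ∈ E, κ x ∈ Finset.range (4 * (n + 1) + 1) := by
    intro x hx
    rw [Finset.mem_range, Nat.lt_succ_iff]
    apply Nat.floor_le_of_le
    rw [div_le_iff₀ hδ0, hδ]
    have : ((4 * (n + 1) : ℕ) : ℝ) * (b / (8 * (n + 1))) = b / 2 := by
      push_cast; field_simp; norm_num
    rw [this]
    linarith [(hE hx).2]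
  set S : Finset ℕ := (Finset.range (4 * (n + 1) + 1)).filter (fun i => ∃ x ∈ E, κ x = i) with hS
  have hsub : E ⊆ ⋃ i ∈ S, Icc (b / 2 + i * δ) (b / 2 + (i + 1) * δ) := by
    intro x hx
    rw [mem_iUnion₂]
    exact ⟨κ x, Finset.mem_filter.2 ⟨hκ3 x hx, x, hx, rfl⟩, hκ1 x hx, (hκ2 x hx).le⟩
  have hcard : 2 * n + 2 ≤ S.card := by
    have h1 : volume E ≤ ∑ i ∈ S, volume (Icc (b / 2 + i * δ) (b / 2 + (i + 1) * δ)) :=
      (measure_mono hsub).trans (measure_biUnion_finset_le S _)
    have h2 : ∀ i ∈ S, volume (Icc (b / 2 + i * δ) (b / 2 + (i + 1) * δ)) = ENNReal.ofReal δ := by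
      intro i _
      rw [Real.volume_Icc]
      congr 1
      ring
    rw [Finset.sum_congr rfl h2, Finset.sum_const, nsmul_eq_mul] at h1
    have h3 := hvol.trans h1
    have h4 : ((S.card : ℕ) : ENNReal) * ENNReal.ofReal δ = ENNReal.ofReal (S.card * δ) := by
      rw [ENNReal.ofReal_mul (by positivity), ENNReal.ofReal_natCast]
    rw [h4, ENNReal.ofReal_le_ofReal_iff (by positivity)] at h3
    have h5 : b / 4 = (2 * n + 2 : ℕ) * δ := by
      rw [hδ]; push_cast; field_simp; ring
    rw [h5] at h3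
    have h6 := le_of_mul_le_mul_right h3 hδ0
    exact_mod_cast h6
  obtain ⟨f, hf1, hf2⟩ := pick n S hcard
  have hex : ∀ i, ∃ x, i ≤ n → x ∈ E ∧ κ x = f i := by
    intro i
    by_cases h : i ≤ n
    · obtain ⟨x, hx, hx2⟩ := (Finset.mem_filter.1 (hf1 i h)).2
      exact ⟨x, fun _ => ⟨hx, hx2⟩⟩
    · exact ⟨0, fun h' => absurd h' h⟩
  choose x hx using hex
  refine ⟨x, fun i hi => (hx i hi).1, fun i j hij hj => ?_⟩
  have h1 := hκ2 _ (hx i (by omega)).1
  have h2 := hκ1 _ (hx j hj).1
  rw [(hx i (by omega)).2] at h1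
  rw [(hx j hj).2] at h2
  have h3 := hf2 i j hij.le hj
  have h4 : (f i : ℝ) + 2 * ((j : ℝ) - i) ≤ f j := by
    have : ((j - i : ℕ) : ℝ) = (j : ℝ) - i := by rw [Nat.cast_sub hij.le]
    rw [← this]
    exact_mod_cast h3
  have h5 : (1 : ℝ) ≤ (j : ℝ) - i := by
    have : ((i + 1 : ℕ) : ℝ) ≤ j := by exact_mod_cast hij
    push_cast at this
    linarith
  nlinarith [mul_le_mul_of_nonneg_right h4 hδ0.le, mul_le_mul_of_nonneg_right h5 hδ0.le]

theorem prod_abs (n i : ℕ) (hi : i ≤ n) :
    ∏ j ∈ (Finset.range (n + 1)).erase i, |(i : ℝ) - j| = i.factorial * (n - i).factorial := by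
  have hset : (Finset.range (n + 1)).erase i = Finset.range i ∪ Finset.Ico (i + 1) (n + 1) := by
    ext j
    simp only [Finset.mem_erase, Finset.mem_range, Finset.mem_union, Finset.mem_Ico]
    omega
  have hdisj : Disjoint (Finset.range i) (Finset.Ico (i + 1) (n + 1)) := by
    rw [Finset.disjoint_left]
    intro j hj hj'
    rw [Finset.mem_range] at hj
    rw [Finset.mem_Ico] at hj'
    omega
  rw [hset, Finset.prod_union hdisj]
  congr 1
  · rw [← Finset.prod_range_reflect, ← Finset.prod_range_add_one_eq_factorial]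
    push_cast
    refine Finset.prod_congr rfl fun j hj => ?_
    rw [Finset.mem_range] at hj
    have : ((i - 1 - j : ℕ) : ℝ) = (i : ℝ) - 1 - j := by
      rw [Nat.sub_sub, Nat.cast_sub (by omega)]
      push_cast; ring
    rw [this, abs_of_nonneg (by have : (0 : ℝ) ≤ j := by positivity
                                linarith)]
    ring
  · rw [Finset.prod_Ico_eq_prod_range, ← Finset.prod_range_add_one_eq_factorial]
    push_cast
    refine Finset.prod_congr (by congr 1) fun j _ => ?_
    rw [abs_sub_comm, abs_of_nonneg (by have : (0 : ℝ) ≤ j := by positivity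
                                        linarith)]
    ring

theorem remez {b : ℝ} (hb : 0 < b) {E : Set ℝ} (hE : E ⊆ Icc (b / 2) b)
    (hvol : ENNReal.ofReal (b / 4) ≤ volume E) (n : ℕ) (P : Polynomial ℂ) (hP : P.natDegree ≤ n)
    {η : ℝ} (hη : ∀ x ∈ E, ‖P.eval (x : ℂ)‖ ≤ η) : ‖P.eval 0‖ ≤ 48 ^ (n + 1) * η := by
  obtain ⟨x, hx1, hx2⟩ := nodes hb hE hvol n
  set δ : ℝ := b / (8 * (n + 1)) with hδ
  have hδ0 : 0 < δ := by positivity
  have hη0 : 0 ≤ η := (norm_nonneg _).trans (hη _ (hx1 0 (Nat.zero_le _)))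
  have habs : ∀ i ≤ n, ∀ j ≤ n, i ≠ j → δ * |(i : ℝ) - j| ≤ |x i - x j| := by
    intro i hi j hj hij
    rcases lt_or_gt_of_ne hij with h | h
    · have h1 := hx2 i j h hj
      have h2 : (0 : ℝ) ≤ (j : ℝ) - i := by
        have : (i : ℝ) ≤ j := by exact_mod_cast h.le
        linarith
      rw [abs_sub_comm, abs_sub_comm (x i), abs_of_nonneg h2]
      exact h1.trans (le_abs_self _)
    · have h1 := hx2 j i h hi
      have h2 : (0 : ℝ) ≤ (i : ℝ) - j := by
        have : (j : ℝ) ≤ i := by exact_mod_cast h.le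
        linarith
      rw [abs_of_nonneg h2]
      exact h1.trans (le_abs_self _)
  set v : ℕ → ℂ := fun i => (x i : ℂ) with hv
  have hinj : Set.InjOn v (Finset.range (n + 1) : Finset ℕ) := by
    intro i hi j hj hij
    by_contra hne
    have hi' : i ≤ n := by simpa [Nat.lt_succ_iff] using hi
    have hj' : j ≤ n := by simpa [Nat.lt_succ_iff] using hj
    have h1 := habs i hi' j hj' hne
    have h2 : x i = x j := Complex.ofReal_injective hij
    rw [h2, sub_self, abs_zero] at h1
    have h3 : (0 : ℝ) < |(i : ℝ) - j| := by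
      apply abs_pos.2
      intro h
      apply hne
      have : (i : ℝ) = j := by linarith
      exact_mod_cast this
    nlinarith
  have hdeg : P.degree < ((Finset.range (n + 1)).card : ℕ) := by
    rw [Finset.card_range]
    refine lt_of_le_of_lt Polynomial.degree_le_natDegree ?_
    exact_mod_cast Nat.lt_succ_of_le hP
  have hint := Lagrange.eq_interpolate hinj hdeg
  have heval : P.eval 0 = ∑ i ∈ Finset.range (n + 1), P.eval (v i) *
      ∏ j ∈ (Finset.range (n + 1)).erase i, ((v i - v j)⁻¹ * (0 - v j)) := by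
    conv_lhs => rw [hint]
    rw [Lagrange.interpolate_apply, Polynomial.eval_finsetSum]
    refine Finset.sum_congr rfl fun i _ => ?_
    rw [Polynomial.eval_mul, Polynomial.eval_C, Lagrange.basis, Polynomial.eval_prod]
    congr 1
    refine Finset.prod_congr rfl fun j _ => ?_
    simp [Lagrange.basisDivisor]
  have hterm : ∀ i ∈ Finset.range (n + 1), ‖P.eval (v i) *
      ∏ j ∈ (Finset.range (n + 1)).erase i, ((v i - v j)⁻¹ * (0 - v j))‖ ≤
      η * ((8 * (n + 1)) ^ n * (n.choose i / n.factorial)) := by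
    intro i hi
    have hi' : i ≤ n := by simpa [Nat.lt_succ_iff] using hi
    rw [norm_mul]
    refine mul_le_mul (hη _ (hx1 i hi')) ?_ (norm_nonneg _) hη0
    rw [norm_prod]
    have h1 : ∀ j ∈ (Finset.range (n + 1)).erase i, ‖(v i - v j)⁻¹ * (0 - v j)‖ ≤
        (8 * (n + 1)) * |(i : ℝ) - j|⁻¹ := by
      intro j hj
      have hj1 : j ≠ i := Finset.ne_of_mem_erase hj
      have hj' : j ≤ n := by
        have := Finset.mem_of_mem_erase hj
        simpa [Nat.lt_succ_iff] using this
      have h3 : (0 : ℝ) < |(i : ℝ) - j| := by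
        apply abs_pos.2
        intro h
        apply hj1
        have : (j : ℝ) = i := by linarith
        exact_mod_cast this
      have h4 := habs i hi' j hj' (Ne.symm hj1)
      have h5 : ‖v i - v j‖ = |x i - x j| := by
        simp only [hv]
        rw [← Complex.ofReal_sub, Complex.norm_real, Real.norm_eq_abs]
      have h6 : ‖(0 : ℂ) - v j‖ ≤ b := by
        simp only [hv, zero_sub, norm_neg, Complex.norm_real, Real.norm_eq_abs]
        have := hE (hx1 j hj')
        rw [abs_of_nonneg (by linarith [this.1])]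
        exact this.2
      rw [norm_mul, norm_inv, h5]
      have h7 : |x i - x j|⁻¹ ≤ (δ * |(i : ℝ) - j|)⁻¹ := inv_anti₀ (by positivity) h4
      calc |x i - x j|⁻¹ * ‖(0 : ℂ) - v j‖ ≤ (δ * |(i : ℝ) - j|)⁻¹ * b :=
            mul_le_mul h7 h6 (norm_nonneg _) (by positivity)
        _ = (8 * (n + 1)) * |(i : ℝ) - j|⁻¹ := by
            rw [hδ]; field_simp
    refine (Finset.prod_le_prod (fun _ _ => norm_nonneg _) h1).trans (le_of_eq ?_)
    rw [Finset.prod_mul_distrib, Finset.prod_const, Finset.prod_inv_distrib, prod_abs n i hi']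
    have hcard : ((Finset.range (n + 1)).erase i).card = n := by
      rw [Finset.card_erase_of_mem hi, Finset.card_range]; rfl
    rw [hcard]
    congr 1
    have hch := Nat.choose_mul_factorial_mul_factorial hi'
    have hch' : (n.choose i : ℝ) * i.factorial * (n - i).factorial = n.factorial := by
      exact_mod_cast hch
    rw [← hch']
    have h8 : (n.choose i : ℝ) ≠ 0 := by
      exact_mod_cast (Nat.choose_pos hi').ne'
    field_simp
  rw [heval]
  refine (norm_sum_le _ _).trans ((Finset.sum_le_sum hterm).trans ?_)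
  rw [← Finset.mul_sum, ← Finset.mul_sum, ← Finset.sum_div]
  have hsum : ∑ i ∈ Finset.range (n + 1), (n.choose i : ℝ) = 2 ^ n := by
    exact_mod_cast Nat.sum_range_choose n
  rw [hsum]
  have hexp : ((n : ℝ) + 1) ^ n / n.factorial ≤ 3 ^ (n + 1) := by
    have h1 := Real.pow_div_factorial_le_exp (x := (n : ℝ) + 1) (by positivity) n
    have h2 : Real.exp ((n : ℝ) + 1) = Real.exp 1 ^ (n + 1) := by
      rw [← Real.exp_nat_mul]; push_cast; ring_nf
    rw [h2] at h1
    refine h1.trans (pow_le_pow_left₀ (Real.exp_pos _).le ?_ _)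
    linarith [Real.exp_one_lt_d9]
  have e : (8 * ((n : ℝ) + 1)) ^ n * (2 ^ n / n.factorial) =
      16 ^ n * (((n : ℝ) + 1) ^ n / n.factorial) := by
    rw [mul_pow, show (16 : ℝ) = 8 * 2 by norm_num, mul_pow]
    ring
  rw [e]
  have h9 : (16 : ℝ) ^ n * (((n : ℝ) + 1) ^ n / n.factorial) ≤ 48 ^ (n + 1) := by
    calc (16 : ℝ) ^ n * (((n : ℝ) + 1) ^ n / n.factorial) ≤ 16 ^ n * 3 ^ (n + 1) :=
          mul_le_mul_of_nonneg_left hexp (by positivity)
      _ ≤ 16 ^ (n + 1) * 3 ^ (n + 1) := by
          refine mul_le_mul_of_nonneg_right ?_ (by positivity)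
          exact pow_le_pow_right₀ (by norm_num) (Nat.le_succ _)
      _ = 48 ^ (n + 1) := by rw [← mul_pow]; norm_num
  calc η * (16 ^ n * (((n : ℝ) + 1) ^ n / n.factorial)) ≤ η * 48 ^ (n + 1) :=
        mul_le_mul_of_nonneg_left h9 hη0
    _ = _ := mul_comm _ _

end Pool.Agent.H329R3.NLS
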