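import Pool.Agent.H329R3.NLS.Comp
import Pool.Agent.H329R3.NLS.Remez
import Pool.Agent.H329R3.NLS.Diag

set_option autoImplicit false

open Set Filter Topology

namespace Pool.Agent.H329R3.NLS

/-- the polynomial collecting the powers of `s ^ 2` -/
noncomputable def pol (κ Q : ℕ) (t : ℝ) : Polynomial ℂ :=
  ∑ q ∈ Finset.range (Q + 1), Polynomial.C (U (κ + 2 * q) t ((κ : ℤ) + 1)) * Polynomial.X ^ q

theorem pol_natDegree (κ Q : ℕ) (t : ℝ) : (pol κ Q t).natDegree ≤ Q := by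
  unfold pol
  refine Polynomial.natDegree_sum_le_of_forall_le _ _ fun q hq => ?_
  rw [Finset.mem_range] at hq
  exact (Polynomial.natDegree_C_mul_X_pow_le _ _).trans (by omega)

theorem pol_zero (κ Q : ℕ) (t : ℝ) : (pol κ Q t).eval 0 = U κ t ((κ : ℤ) + 1) := by
  unfold pol
  rw [Polynomial.eval_finsetSum, Finset.sum_eq_single 0]
  · simp
  · intro q _ hq
    simp [hq]
  · intro h
    exact absurd (Finset.mem_range.2 (Nat.succ_pos Q)) h

theorem W_pol (κ Q : ℕ) (s t : ℝ) :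
    W (κ + 2 * Q + 1) s t ((κ : ℤ) + 1) = (s : ℂ) ^ (κ + 1) * (pol κ Q t).eval ((s : ℂ) ^ 2) := by
  induction Q with
  | zero =>
    unfold W pol
    simp only [Nat.mul_zero, Nat.add_zero]
    rw [Finset.sum_range_succ, Finset.sum_eq_zero]
    · simp
    · intro n hn
      rw [Finset.mem_range] at hn
      rw [U_supp n t ((κ : ℤ) + 1), mul_zero]
      rw [abs_of_pos (by omega)]
      push_cast
      omega
  | succ Q ih =>
    have e1 : W (κ + 2 * (Q + 1) + 1) s t ((κ : ℤ) + 1) = W (κ + 2 * Q + 1) s t ((κ : ℤ) + 1) +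
        (s : ℂ) ^ (κ + 2 * Q + 1 + 1) * U (κ + 2 * Q + 1) t ((κ : ℤ) + 1) +
        (s : ℂ) ^ (κ + 2 * Q + 2 + 1) * U (κ + 2 * Q + 2) t ((κ : ℤ) + 1) := by
      have : κ + 2 * (Q + 1) + 1 = κ + 2 * Q + 1 + 1 + 1 := by ring
      rw [this]
      unfold W
      rw [Finset.sum_range_succ, Finset.sum_range_succ]
    rw [e1, ih, U_parity (κ + 2 * Q + 1) t ((κ : ℤ) + 1) (by push_cast; omega), mul_zero, add_zero]
    have e2 : pol κ (Q + 1) t = pol κ Q t +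
        Polynomial.C (U (κ + 2 * (Q + 1)) t ((κ : ℤ) + 1)) * Polynomial.X ^ (Q + 1) := by
      unfold pol
      rw [Finset.sum_range_succ]
    rw [e2, Polynomial.eval_add, Polynomial.eval_mul, Polynomial.eval_C, Polynomial.eval_pow,
      Polynomial.eval_X]
    have e3 : κ + 2 * (Q + 1) = κ + 2 * Q + 2 := by ring
    rw [e3]
    ring

theorem W_tail {s t : ℝ} (hs : 0 ≤ s) (hs8 : 8 * Real.pi * s ≤ 1) (ht : t ∈ Icc 0 (2 * Real.pi))
    (k : ℤ) {N M : ℕ} (hNM : N ≤ M) : ‖W M s t k - W N s t k‖ ≤ (4 * Real.pi * s) ^ N := by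
  have hpi := Real.pi_gt_three
  have hr0 : 0 ≤ 4 * Real.pi * s := by positivity
  have hr1 : 4 * Real.pi * s ≤ 1 / 2 := by linarith
  have h2s : 2 * s ≤ 1 / 2 := by nlinarith
  have e1 : W M s t k - W N s t k = ∑ n ∈ Finset.Ico N M, (s : ℂ) ^ (n + 1) * U n t k := by
    unfold W
    rw [Finset.sum_Ico_eq_sub _ hNM]
  rw [e1]
  have hterm : ∀ n ∈ Finset.Ico N M, ‖(s : ℂ) ^ (n + 1) * U n t k‖ ≤
      1 / 2 * (4 * Real.pi * s) ^ n := by
    intro n _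
    rw [norm_mul, norm_pow, Complex.norm_real, Real.norm_of_nonneg hs]
    have h1 := (U_bd n ht.1).le k
    have h2 : (t : ℝ) ^ n ≤ (2 * Real.pi) ^ n := pow_le_pow_left₀ ht.1 ht.2 n
    calc s ^ (n + 1) * ‖U n t k‖ ≤ s ^ (n + 1) * (2 ^ (n + 1) * (2 * Real.pi) ^ n) := by
          refine mul_le_mul_of_nonneg_left (h1.trans ?_) (by positivity)
          exact mul_le_mul_of_nonneg_left h2 (by positivity)
      _ = (2 * s) * (4 * Real.pi * s) ^ n := by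
          have : (4 * Real.pi * s) ^ n = s ^ n * 2 ^ n * (2 * Real.pi) ^ n := by
            rw [← mul_pow, ← mul_pow]; congr 1; ring
          rw [this]; ring
      _ ≤ 1 / 2 * (4 * Real.pi * s) ^ n := mul_le_mul_of_nonneg_right h2s (by positivity)
  calc ‖∑ n ∈ Finset.Ico N M, (s : ℂ) ^ (n + 1) * U n t k‖
      ≤ ∑ n ∈ Finset.Ico N M, ‖(s : ℂ) ^ (n + 1) * U n t k‖ := norm_sum_le _ _
    _ ≤ ∑ n ∈ Finset.Ico N M, 1 / 2 * (4 * Real.pi * s) ^ n := Finset.sum_le_sum hterm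
    _ = 1 / 2 * ∑ n ∈ Finset.Ico N M, (4 * Real.pi * s) ^ n := by rw [Finset.mul_sum]
    _ ≤ 1 / 2 * ((4 * Real.pi * s) ^ N / (1 - 4 * Real.pi * s)) := by
        refine mul_le_mul_of_nonneg_left ?_ (by norm_num)
        exact geom_sum_Ico_le_of_lt_one hr0 (by linarith)
    _ ≤ (4 * Real.pi * s) ^ N := by
        rw [div_eq_mul_inv ((4 * Real.pi * s) ^ N)]
        have h3 : (1 - 4 * Real.pi * s)⁻¹ ≤ 2 := by
          rw [inv_le_comm₀ (by linarith) (by norm_num)]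
          linarith
        have h4 : 0 ≤ (4 * Real.pi * s) ^ N := by positivity
        nlinarith [mul_le_mul_of_nonneg_left h3 h4]

theorem pol_est {a : ℝ → ℤ → ℂ} {s K : ℝ} (hs : 0 < s) (hs8 : 8 * Real.pi * s ≤ 1)
    (ha : ∀ k, ∀ t ∈ Icc 0 (2 * Real.pi), HasDerivWithinAt (fun s => a s k)
      (Complex.I * (-((k : ℂ) ^ 2) * a t k + conv (a t) (a t) k)) (Icc 0 (2 * Real.pi)) t)
    (h0 : ∀ k, a 0 k = if k = 1 ∨ k = -1 then (s : ℂ) else 0)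
    (hK : ∀ t ∈ Icc 0 (2 * Real.pi), Bd (a t) K) {t : ℝ} (ht : t ∈ Icc 0 (2 * Real.pi))
    (κ Q : ℕ) : ‖(pol κ Q t).eval ((s : ℂ) ^ 2)‖ ≤
      (s ^ (κ + 1))⁻¹ * ‖a t ((κ : ℤ) + 1)‖ +
        (4 * Real.pi) ^ (κ + 1) * (16 * Real.pi ^ 2 * s ^ 2) ^ Q := by
  have hpi := Real.pi_gt_three
  have hlim := sol_eq (T := 2 * Real.pi) hs.le (by nlinarith) (by linarith) ha h0 hK ht
    ((κ : ℤ) + 1)
  set N := κ + 2 * Q + 1 with hN
  have h1 : ‖a t ((κ : ℤ) + 1) - W N s t ((κ : ℤ) + 1)‖ ≤ (4 * Real.pi * s) ^ N := by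
    have hl2 : Tendsto (fun M => ‖W M s t ((κ : ℤ) + 1) - W N s t ((κ : ℤ) + 1)‖) atTop
        (𝓝 ‖a t ((κ : ℤ) + 1) - W N s t ((κ : ℤ) + 1)‖) := (hlim.sub_const _).norm
    refine le_of_tendsto hl2 ?_
    filter_upwards [eventually_ge_atTop N] with M hM
    exact W_tail hs.le hs8 ht _ hM
  have h2 : ‖W N s t ((κ : ℤ) + 1)‖ ≤ ‖a t ((κ : ℤ) + 1)‖ + (4 * Real.pi * s) ^ N := by
    have := norm_sub_norm_le (W N s t ((κ : ℤ) + 1)) (a t ((κ : ℤ) + 1))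
    rw [norm_sub_rev] at this
    linarith
  rw [W_pol, norm_mul, norm_pow, Complex.norm_real, Real.norm_of_nonneg hs.le] at h2
  have hsp : 0 < s ^ (κ + 1) := by positivity
  have e : (4 * Real.pi * s) ^ N = s ^ (κ + 1) *
      ((4 * Real.pi) ^ (κ + 1) * (16 * Real.pi ^ 2 * s ^ 2) ^ Q) := by
    have e1 : 16 * Real.pi ^ 2 * s ^ 2 = (4 * Real.pi * s) ^ 2 := by ring
    rw [e1, ← pow_mul, hN, show κ + 2 * Q + 1 = (κ + 1) + 2 * Q by ring, pow_add,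
      mul_pow (4 * Real.pi) s (κ + 1)]
    ring
  rw [e] at h2
  have h3 : s ^ (κ + 1) * ‖(pol κ Q t).eval ((s : ℂ) ^ 2)‖ ≤ s ^ (κ + 1) *
      ((s ^ (κ + 1))⁻¹ * ‖a t ((κ : ℤ) + 1)‖ +
        (4 * Real.pi) ^ (κ + 1) * (16 * Real.pi ^ 2 * s ^ 2) ^ Q) := by
    rw [mul_add, ← mul_assoc, mul_inv_cancel₀ hsp.ne', one_mul]
    exact h2
  exact le_of_mul_le_mul_left h3 hsp

end Pool.Agent.H329R3.NLS
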